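import Mathlib

/-!
Basic facts on the measure `m S a b` of a set `S` in the interval `[a,b]` (an interval integral),
and on step sets `St P`, used for MP_91bf7f_an.
-/

open MeasureTheory Set

namespace R495.TS

/-- The measure of `S` in `[a,b]`, written as an interval integral of the indicator. -/
noncomputable def m (S : Set ℝ) (a b : ℝ) : ℝ := ∫ t in a..b, S.indicator (fun _ => (1:ℝ)) t

lemma ii {S : Set ℝ} (hS : MeasurableSet S) (a b : ℝ) :
    IntervalIntegrable (S.indicator (fun _ => (1:ℝ))) volume a b :=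
  ⟨(intervalIntegrable_const (μ := volume) (a := a) (b := b) (c := (1:ℝ))).1.indicator hS,
   (intervalIntegrable_const (μ := volume) (a := a) (b := b) (c := (1:ℝ))).2.indicator hS⟩

lemma m_add {S : Set ℝ} (hS : MeasurableSet S) (a b c : ℝ) : m S a b + m S b c = m S a c :=
  intervalIntegral.integral_add_adjacent_intervals (ii hS a b) (ii hS b c)

lemma m_self (S : Set ℝ) (a : ℝ) : m S a a = 0 := intervalIntegral.integral_same

lemma m_nonneg (S : Set ℝ) {a b : ℝ} (h : a ≤ b) : 0 ≤ m S a b :=
  intervalIntegral.integral_nonneg h (fun t _ => indicator_nonneg (fun _ _ => zero_le_one) t)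

lemma m_mono {S T : Set ℝ} (hS : MeasurableSet S) (hT : MeasurableSet T) {a b : ℝ} (h : a ≤ b)
    (hst : ∀ t, a < t → t < b → t ∈ S → t ∈ T) : m S a b ≤ m T a b := by
  apply intervalIntegral.integral_mono_on_of_le_Ioo h (ii hS a b) (ii hT a b)
  intro t ht
  by_cases h1 : t ∈ S
  · rw [indicator_of_mem h1, indicator_of_mem (hst t ht.1 ht.2 h1)]
  · rw [indicator_of_notMem h1]; exact indicator_nonneg (fun _ _ => zero_le_one) t

lemma m_congr {S T : Set ℝ} (hS : MeasurableSet S) (hT : MeasurableSet T) {a b : ℝ} (h : a ≤ b)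
    (hst : ∀ t, a < t → t < b → (t ∈ S ↔ t ∈ T)) : m S a b = m T a b :=
  le_antisymm (m_mono hS hT h fun t h1 h2 => (hst t h1 h2).1)
    (m_mono hT hS h fun t h1 h2 => (hst t h1 h2).2)

lemma m_univ (a b : ℝ) : m univ a b = b - a := by
  simp [m]

lemma m_empty (a b : ℝ) : m ∅ a b = 0 := by
  simp [m]

lemma m_le {S : Set ℝ} (hS : MeasurableSet S) {a b : ℝ} (h : a ≤ b) : m S a b ≤ b - a := by
  rw [← m_univ a b]
  exact m_mono hS MeasurableSet.univ h (fun t _ _ _ => mem_univ t)

lemma m_zero {S : Set ℝ} (hS : MeasurableSet S) {a b : ℝ} (h : a ≤ b)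
    (hst : ∀ t, a < t → t < b → t ∉ S) : m S a b = 0 := by
  rw [← m_empty a b]
  exact m_congr hS MeasurableSet.empty h (fun t h1 h2 => by simp [hst t h1 h2])

lemma m_full {S : Set ℝ} (hS : MeasurableSet S) {a b : ℝ} (h : a ≤ b)
    (hst : ∀ t, a < t → t < b → t ∈ S) : m S a b = b - a := by
  rw [← m_univ a b]
  exact m_congr hS MeasurableSet.univ h (fun t h1 h2 => by simp [hst t h1 h2])

lemma m_compl {S : Set ℝ} (hS : MeasurableSet S) (a b : ℝ) : m Sᶜ a b = (b - a) - m S a b := by
  have : m Sᶜ a b + m S a b = b - a := by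
    rw [← m_univ a b]; unfold m
    rw [← intervalIntegral.integral_add (ii hS.compl a b) (ii hS a b)]
    congr 1; ext t
    by_cases h1 : t ∈ S <;> simp [h1]
  linarith

lemma m_symmDiff {S E : Set ℝ} (hS : MeasurableSet S) (hE : MeasurableSet E) (a b : ℝ) :
    m (symmDiff S E) a b = m S a b + m E a b - 2 * m (S ∩ E) a b := by
  have : m (symmDiff S E) a b + 2 * m (S ∩ E) a b = m S a b + m E a b := by
    unfold m
    rw [← intervalIntegral.integral_const_mul,
      ← intervalIntegral.integral_add (ii (hS.symmDiff hE) a b) ((ii (hS.inter hE) a b).const_mul 2),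
      ← intervalIntegral.integral_add (ii hS a b) (ii hE a b)]
    congr 1; ext t
    by_cases h1 : t ∈ S <;> by_cases h2 : t ∈ E <;> simp [h1, h2, Set.mem_symmDiff] 
    norm_num
  linarith

lemma m_union_le {S E : Set ℝ} (hS : MeasurableSet S) (hE : MeasurableSet E) {a b : ℝ} (h : a ≤ b) :
    m (S ∪ E) a b ≤ m S a b + m E a b := by
  unfold m
  rw [← intervalIntegral.integral_add (ii hS a b) (ii hE a b)]
  apply intervalIntegral.integral_mono_on h (ii (hS.union hE) a b) ((ii hS a b).add (ii hE a b))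
  intro t _
  by_cases h1 : t ∈ S <;> by_cases h2 : t ∈ E <;> simp [h1, h2]

/-- the change of measure under a symmetric difference -/
lemma m_sub_le {S T D : Set ℝ} (hS : MeasurableSet S) (hT : MeasurableSet T) (hD : MeasurableSet D)
    {a b : ℝ} (h : a ≤ b) (hst : ∀ t, t ∉ D → (t ∈ S ↔ t ∈ T)) : |m S a b - m T a b| ≤ m D a b := by
  rw [abs_sub_le_iff]
  constructor
  · have h1 := m_union_le hT hD h
    have h2 : m S a b ≤ m (T ∪ D) a b := m_mono hS (hT.union hD) h (fun t _ _ h1 => by
      by_cases h2 : t ∈ D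
      · exact Or.inr h2
      · exact Or.inl ((hst t h2).1 h1))
    linarith
  · have h1 := m_union_le hS hD h
    have h2 : m T a b ≤ m (S ∪ D) a b := m_mono hT (hS.union hD) h (fun t _ _ h1 => by
      by_cases h2 : t ∈ D
      · exact Or.inr h2
      · exact Or.inl ((hst t h2).2 h1))
    linarith

lemma m_sub_interval {S : Set ℝ} (hS : MeasurableSet S) {a b c d : ℝ} (h1 : a ≤ b) (h2 : b ≤ c)
    (h3 : c ≤ d) : m S b c ≤ m S a d := by
  have e1 := m_add hS a b c
  have e2 := m_add hS a c d
  have e3 := m_nonneg S h1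
  have e4 := m_nonneg S h3
  linarith

/-- continuity of the measure function in both endpoints -/
lemma continuous_m {S : Set ℝ} (hS : MeasurableSet S) : Continuous fun z : ℝ × ℝ => m S z.1 z.2 := by
  have h1 : Continuous fun t : ℝ => m S 0 t := by
    have := intervalIntegral.continuous_primitive (μ := volume) (f := S.indicator (fun _ => (1:ℝ)))
      (fun a b => ii hS a b) 0
    exact this
  have h2 : (fun z : ℝ × ℝ => m S z.1 z.2) = fun z => m S 0 z.2 - m S 0 z.1 := by
    ext z
    have := m_add hS 0 z.1 z.2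
    linarith
  rw [h2]
  exact (h1.comp continuous_snd).sub (h1.comp continuous_fst)

/-- relation with the volume -/
lemma m_eq_volume {S : Set ℝ} (hS : MeasurableSet S) {a b : ℝ} (h : a ≤ b) :
    m S a b = (volume (Icc a b ∩ S)).toReal := by
  unfold m
  rw [intervalIntegral.integral_of_le h, ← integral_Icc_eq_integral_Ioc,
    setIntegral_indicator hS]
  simp [Measure.real]

/-! ### Step sets -/

/-- The step set with jumps exactly at the points of `P`: an odd number of jumps happened. -/
def St (P : Finset ℝ) : Set ℝ := {t | Odd (P.filter (· ≤ t)).card}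

lemma mem_St {P : Finset ℝ} {t : ℝ} : t ∈ St P ↔ Odd (P.filter (· ≤ t)).card := Iff.rfl

lemma St_empty : St ∅ = ∅ := by
  ext t; simp [mem_St]

/-- constancy between jump points -/
lemma St_const {P : Finset ℝ} {s t : ℝ} (hst : s ≤ t) (h : ∀ p ∈ P, s < p → t < p) :
    s ∈ St P ↔ t ∈ St P := by
  have : P.filter (· ≤ s) = P.filter (· ≤ t) := by
    ext p
    simp only [Finset.mem_filter]
    constructor
    · rintro ⟨h1, h2⟩; exact ⟨h1, h2.trans hst⟩
    · rintro ⟨h1, h2⟩
      refine ⟨h1, ?_⟩
      by_contra h3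
      exact absurd (h p h1 (not_le.1 h3)) (not_lt.2 h2)
  rw [mem_St, mem_St, this]

/-- a genuine jump at each point of `P` -/
lemma St_jump {P : Finset ℝ} {s t c : ℝ} (hc : c ∈ P) (hs : s < c) (ht : c ≤ t)
    (h : ∀ p ∈ P, s < p → p ≤ t → p = c) : s ∈ St P ↔ t ∉ St P := by
  have : P.filter (· ≤ t) = insert c (P.filter (· ≤ s)) := by
    ext p
    simp only [Finset.mem_filter, Finset.mem_insert]
    constructor
    · rintro ⟨h1, h2⟩
      by_cases h3 : s < p
      · exact Or.inl (h p h1 h3 h2)
      · exact Or.inr ⟨h1, not_lt.1 h3⟩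
    · rintro (rfl | ⟨h1, h2⟩)
      · exact ⟨hc, ht⟩
      · exact ⟨h1, h2.trans (hs.le.trans ht)⟩
  rw [mem_St, mem_St, this, Finset.card_insert_of_notMem (by simp [hs])]
  rw [Nat.not_odd_iff_even, Nat.even_add_one, Nat.not_even_iff_odd]

lemma St_symmDiff (P R : Finset ℝ) : St (symmDiff P R) = symmDiff (St P) (St R) := by
  ext t
  have key : ∀ A B : Finset ℝ, (Odd (symmDiff A B).card ↔ ¬ (Odd A.card ↔ Odd B.card)) := by
    intro A B
    have h1 : (symmDiff A B).card + 2 * (A ∩ B).card = A.card + B.card := by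
      have e1 : symmDiff A B = (A \ B) ∪ (B \ A) := rfl
      rw [e1, Finset.card_union_of_disjoint disjoint_sdiff_sdiff]
      have e2 := Finset.card_sdiff_add_card_inter A B
      have e3 := Finset.card_sdiff_add_card_inter B A
      rw [Finset.inter_comm] at e3
      omega
    rw [Nat.odd_iff, Nat.odd_iff, Nat.odd_iff]
    omega
  have h2 : (symmDiff P R).filter (· ≤ t) = symmDiff (P.filter (· ≤ t)) (R.filter (· ≤ t)) := by
    ext p
    simp only [Finset.mem_filter, Finset.mem_symmDiff]
    tauto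
  rw [mem_St, h2, key, Set.mem_symmDiff, mem_St, mem_St]
  tauto

lemma St_singleton (a : ℝ) : St {a} = Ici a := by
  ext t
  rw [mem_St, mem_Ici, Finset.filter_singleton]
  split_ifs with h <;> simp [h]

lemma St_insert {a : ℝ} {P : Finset ℝ} (ha : a ∉ P) : St (insert a P) = symmDiff (Ici a) (St P) := by
  rw [← St_singleton, ← St_symmDiff]
  congr 1
  ext p
  simp only [Finset.mem_insert, Finset.mem_symmDiff, Finset.mem_singleton]
  constructor
  · rintro (rfl | h)
    · exact Or.inl ⟨rfl, ha⟩
    · exact Or.inr ⟨h, fun h' => ha (h' ▸ h)⟩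
  · rintro (⟨h, _⟩ | ⟨h, _⟩)
    · exact Or.inl h
    · exact Or.inr h

lemma St_meas (P : Finset ℝ) : MeasurableSet (St P) := by
  induction P using Finset.induction_on with
  | empty => rw [St_empty]; exact MeasurableSet.empty
  | insert a P ha ih => rw [St_insert ha]; exact measurableSet_Ici.symmDiff ih

/-- being a step set -/
def IsStep (S : Set ℝ) : Prop := ∃ P : Finset ℝ, S = St P

lemma IsStep.symmDiff {S T : Set ℝ} (hS : IsStep S) (hT : IsStep T) : IsStep (symmDiff S T) := by
  obtain ⟨P, rfl⟩ := hS; obtain ⟨R, rfl⟩ := hT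
  exact ⟨_, (St_symmDiff P R).symm⟩

lemma isStep_Ici (a : ℝ) : IsStep (Ici a) := ⟨{a}, (St_singleton a).symm⟩

lemma isStep_empty : IsStep ∅ := ⟨∅, St_empty.symm⟩

lemma IsStep.meas {S : Set ℝ} (hS : IsStep S) : MeasurableSet S := by
  obtain ⟨P, rfl⟩ := hS; exact St_meas P

lemma IsStep.inter {S T : Set ℝ} (hS : IsStep S) (hT : IsStep T) : IsStep (S ∩ T) := by
  obtain ⟨P, rfl⟩ := hS
  induction P using Finset.induction_on with
  | empty => rw [St_empty, empty_inter]; exact isStep_empty
  | insert a P ha ih =>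
    rw [St_insert ha]
    have e1 : _root_.symmDiff (Ici a) (St P) ∩ T = _root_.symmDiff (Ici a ∩ T) (St P ∩ T) := by
      ext t; simp only [Set.mem_symmDiff, mem_inter_iff]; tauto
    rw [e1]
    refine IsStep.symmDiff ?_ ih
    obtain ⟨R, rfl⟩ := hT
    clear e1 ih ha
    induction R using Finset.induction_on with
    | empty => rw [St_empty, inter_empty]; exact isStep_empty
    | insert b R hb ih =>
      rw [St_insert hb]
      have e2 : Ici a ∩ _root_.symmDiff (Ici b) (St R) = _root_.symmDiff (Ici (max a b)) (Ici a ∩ St R) := by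
        ext t; simp only [Set.mem_symmDiff, mem_inter_iff, mem_Ici, max_le_iff]; tauto
      rw [e2]
      exact (isStep_Ici _).symmDiff ih

lemma IsStep.union {S T : Set ℝ} (hS : IsStep S) (hT : IsStep T) : IsStep (S ∪ T) := by
  have e : S ∪ T = _root_.symmDiff (_root_.symmDiff S T) (S ∩ T) := by
    ext t; simp only [Set.mem_symmDiff, mem_inter_iff, mem_union]; tauto
  rw [e]; exact (hS.symmDiff hT).symmDiff (hS.inter hT)

lemma IsStep.diff {S T : Set ℝ} (hS : IsStep S) (hT : IsStep T) : IsStep (S \ T) := by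
  have e : S \ T = _root_.symmDiff S (S ∩ T) := by
    ext t; simp only [Set.mem_symmDiff, mem_inter_iff, mem_diff]; tauto
  rw [e]; exact hS.symmDiff (hS.inter hT)

lemma isStep_Ico (a b : ℝ) : IsStep (Ico a b) := by
  have e : Ico a b = Ici a \ Ici b := by
    ext t; simp
  rw [e]; exact (isStep_Ici a).diff (isStep_Ici b)

lemma isStep_biUnion {ι : Type*} (s : Finset ι) (f : ι → Set ℝ) (hf : ∀ i ∈ s, IsStep (f i)) :
    IsStep (⋃ i ∈ s, f i) := by
  classical
  induction s using Finset.induction_on with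
  | empty => simpa using isStep_empty
  | insert a s ha ih =>
    rw [Finset.set_biUnion_insert]
    exact (hf a (Finset.mem_insert_self _ _)).union
      (ih fun i hi => hf i (Finset.mem_insert_of_mem hi))

/-- If `St P` is constant on the open interval `(a,b)` then it contains no point of `P`. -/
lemma St_no_jump {P : Finset ℝ} {a b : ℝ} (h : ∀ s t, a < s → s ≤ t → t < b → (s ∈ St P ↔ t ∈ St P))
    {p : ℝ} (hp : p ∈ P) : ¬ (a < p ∧ p < b) := by
  rintro ⟨h1, h2⟩
  -- a point `s < p` with no point of `P` in `(s, p)`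
  obtain ⟨s, hs1, hs2, hs3⟩ : ∃ s, a < s ∧ s < p ∧ ∀ q ∈ P, s < q → q ≤ p → q = p := by
    by_cases hne : (P.filter (· < p)).Nonempty
    · obtain ⟨q, hq, hmax⟩ := (P.filter (· < p)).exists_max_image id hne
      have hq' : q < p := (Finset.mem_filter.1 hq).2
      refine ⟨(max a q + p) / 2, ?_, ?_, ?_⟩
      · have := le_max_left a q; linarith [max_lt h1 hq']
      · linarith [max_lt h1 hq']
      · intro r hr h3 h4
        by_contra h5
        have h6 : r < p := lt_of_le_of_ne h4 h5
        have h7 := hmax r (Finset.mem_filter.2 ⟨hr, h6⟩)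
        simp only [id] at h7
        have := le_max_right a q
        linarith [max_lt h1 hq']
    · refine ⟨(a + p) / 2, by linarith, by linarith, ?_⟩
      intro r hr h3 h4
      by_contra h5
      exact hne ⟨r, Finset.mem_filter.2 ⟨hr, lt_of_le_of_ne h4 h5⟩⟩
  have e1 := St_jump hp hs2 le_rfl hs3
  have e2 := h s p hs1 hs2.le h2
  tauto

end R495.TS
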