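import Mathlib
import Pool.Agent.R495.TS.Basic

/-!
The perturbation set `E`, and the comparison of the two intervals of a pair.
-/

open MeasureTheory Set

namespace R495.TS

/-- the integral of the density `ε (1+t)` on `[a,b]` -/
noncomputable def H (ε a b : ℝ) : ℝ := ε * ((b - a) * (1 + (a + b) / 2))

lemma H_add (ε a b c : ℝ) : H ε a b + H ε b c = H ε a c := by unfold H; ring

lemma H_nonneg {ε a b : ℝ} (hε : 0 < ε) (ha : 0 ≤ a) (h : a ≤ b) : 0 ≤ H ε a b := by
  unfold H
  have : 0 ≤ b - a := by linarith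
  have : 0 ≤ 1 + (a + b) / 2 := by linarith
  positivity

lemma H_le {ε a b : ℝ} (hε : 0 < ε) (h : a ≤ b) (hb : b ≤ 1) : H ε a b ≤ 2 * ε * (b - a) := by
  unfold H
  have h1 : (b - a) * (1 + (a + b) / 2) ≤ (b - a) * 2 :=
    mul_le_mul_of_nonneg_left (by linarith) (by linarith)
  nlinarith

lemma m_Ico_le {a b u v : ℝ} (h : a ≤ b) (huv : u ≤ v) : m (Ico a b) u v ≤ b - a := by
  rw [m_eq_volume measurableSet_Ico huv]
  have h1 : volume (Icc u v ∩ Ico a b) ≤ volume (Ico a b) := measure_mono inter_subset_right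
  have h2 : (volume (Ico a b)).toReal = b - a := by
    rw [Real.volume_Ico, ENNReal.toReal_ofReal (by linarith)]
  rw [← h2]
  exact ENNReal.toReal_mono (by rw [Real.volume_Ico]; exact ENNReal.ofReal_ne_top) h1

/-- a step set with density close to `ε (1+t)` -/
lemma exists_O {ε κ : ℝ} (hε : 0 < ε) (hε1 : ε ≤ 1 / 2) (hκ : 0 < κ) :
    ∃ O : Set ℝ, IsStep O ∧ O ⊆ Ico 0 1 ∧
      ∀ u v, 0 ≤ u → u ≤ v → v ≤ 1 → |m O u v - H ε u v| ≤ κ := by
  obtain ⟨N, hN⟩ := exists_nat_gt (2 / κ)
  have hN0 : (0:ℝ) < N := lt_trans (by positivity) hN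
  have hNκ : 2 * (1 / (N:ℝ)) ≤ κ := by
    rw [div_lt_iff₀ hκ] at hN
    rw [mul_one_div, div_le_iff₀ hN0]; linarith
  have claim : ∀ k : ℕ, k ≤ N → ∃ O : Set ℝ, IsStep O ∧ O ⊆ Ico 0 ((k:ℝ) / N) ∧
      m O 0 ((k:ℝ) / N) = H ε 0 ((k:ℝ) / N) ∧
      ∀ t, 0 ≤ t → t ≤ (k:ℝ) / N → |m O 0 t - H ε 0 t| ≤ 1 / N := by
    intro k
    induction k with
    | zero =>
      intro _
      refine ⟨∅, isStep_empty, by simp, by simp [m_empty, H], ?_⟩
      intro t h0 h1
      have : t = 0 := le_antisymm (by simpa using h1) h0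
      subst this
      simp [m_empty, H]
    | succ k ih =>
      intro hk
      obtain ⟨O, hO, hsub, heq, hle⟩ := ih (by omega)
      set g : ℝ := (k:ℝ) / N with hg
      set g' : ℝ := ((k + 1 : ℕ) : ℝ) / N with hg'
      have hgg : g' = g + 1 / N := by
        rw [hg, hg']; push_cast; ring
      have hN1 : 0 < 1 / (N:ℝ) := by positivity
      have hg0 : 0 ≤ g := by positivity
      have hg'1 : g' ≤ 1 := by
        rw [hg', div_le_one hN0]; exact_mod_cast hk
      set a := H ε g g' with ha
      have ha0 : 0 ≤ a := H_nonneg hε hg0 (by linarith)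
      have ha1 : a ≤ 1 / N := by
        have := H_le hε (show g ≤ g' by linarith) hg'1
        have h3 : g' - g = 1 / N := by linarith
        rw [h3] at this
        nlinarith
      have hI : IsStep (Ico g (g + a)) := isStep_Ico _ _
      have hU := hO.union hI
      refine ⟨O ∪ Ico g (g + a), hU, ?_, ?_, ?_⟩
      · rintro t (ht | ht)
        · have := hsub ht
          exact ⟨this.1, this.2.trans (by linarith)⟩
        · exact ⟨hg0.trans ht.1, by linarith [ht.2]⟩
      · rw [← m_add hU.meas 0 g g', ← H_add ε 0 g g']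
        have e1 : m (O ∪ Ico g (g + a)) 0 g = m O 0 g :=
          m_congr hU.meas hO.meas hg0 (fun t h1 h2 => by
            simp only [mem_union, mem_Ico]
            constructor
            · rintro (h | h)
              · exact h
              · linarith [h.1]
            · exact Or.inl)
        have e2 : m (O ∪ Ico g (g + a)) g g' = a := by
          rw [← m_add hU.meas g (g + a) g']
          have e3 : m (O ∪ Ico g (g + a)) g (g + a) = (g + a) - g :=
            m_full hU.meas (by linarith) (fun t h1 h2 => Or.inr ⟨h1.le, h2⟩)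
          have e4 : m (O ∪ Ico g (g + a)) (g + a) g' = 0 :=
            m_zero hU.meas (by linarith) (fun t h1 h2 => by
              rintro (h | h)
              · have := (hsub h).2; linarith
              · linarith [h.2])
          rw [e3, e4]; ring
        rw [e1, e2, heq]
      · intro t h0 h1
        by_cases htg : t ≤ g
        · have e1 : m (O ∪ Ico g (g + a)) 0 t = m O 0 t :=
            m_congr hU.meas hO.meas h0 (fun s h1 h2 => by
              simp only [mem_union, mem_Ico]
              constructor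
              · rintro (h | h)
                · exact h
                · linarith [h.1]
              · exact Or.inl)
          rw [e1]; exact hle t h0 htg
        · push Not at htg
          have e1 : m (O ∪ Ico g (g + a)) 0 g = m O 0 g :=
            m_congr hU.meas hO.meas hg0 (fun t h1 h2 => by
              simp only [mem_union, mem_Ico]
              constructor
              · rintro (h | h)
                · exact h
                · linarith [h.1]
              · exact Or.inl)
          rw [← m_add hU.meas 0 g t, ← H_add ε 0 g t, e1, heq]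
          have h3 := m_nonneg (O ∪ Ico g (g + a)) htg.le
          have h4 := m_le hU.meas htg.le
          have h5 := H_nonneg hε hg0 htg.le
          have h6 := H_le hε htg.le (by linarith)
          have h7 : t - g ≤ 1 / N := by linarith
          have h8 : 2 * ε * (t - g) ≤ t - g := by nlinarith
          rw [abs_le]
          constructor <;> linarith
  obtain ⟨O, hO, hsub, -, hle⟩ := claim N le_rfl
  have hNN : (N:ℝ) / N = 1 := div_self hN0.ne'
  rw [hNN] at hsub hle
  refine ⟨O, hO, hsub, ?_⟩
  intro u v h0 huv hv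
  have h1 := hle u h0 (by linarith)
  have h2 := hle v (by linarith) hv
  have e1 := m_add hO.meas 0 u v
  have e2 := H_add ε 0 u v
  rw [abs_le] at h1 h2 ⊢
  constructor <;> linarith [h1.1, h1.2, h2.1, h2.2]

/-- the left radius of the anchored cell of `c` -/
noncomputable def rm (L c : ℝ) : ℝ := L * (2 - c)

/-- the right radius of the anchored cell of `c` -/
noncomputable def rp (L l0 c : ℝ) : ℝ := L * (2 - c - l0)

lemma exists_E (Q : Finset ℝ) (hQ : ∀ c ∈ Q, 0 ≤ c ∧ c ≤ 1) {ε L l0 κ : ℝ} (hε : 0 < ε)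
    (hε1 : ε ≤ 1 / 2) (hL : 0 < L) (hl0 : 0 < l0) (hl1 : l0 ≤ 1 / 4) (hκ : 0 < κ) :
    ∃ E : Set ℝ, IsStep E ∧ E ⊆ Ico 0 1 ∧
      (∀ c ∈ Q, ∀ t, c - rm L c < t → t < c + rp L l0 c → t ∉ E) ∧
      (∀ u v, 0 ≤ u → u ≤ v → v ≤ 1 → m E u v ≤ H ε u v + κ) ∧
      (∀ u v, 0 ≤ u → u ≤ v → v ≤ 1 → (∀ c ∈ Q, v ≤ c - rm L c ∨ c + rp L l0 c ≤ u) →
        H ε u v - κ ≤ m E u v) ∧
      (∀ u v, 0 ≤ u → u ≤ v → v ≤ 1 → H ε u v - κ - 4 * Q.card * L ≤ m E u v) := by
  obtain ⟨O, hO, hsub, hOle⟩ := exists_O hε hε1 hκ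
  set A : Set ℝ := ⋃ c ∈ Q, Ico (c - rm L c) (c + rp L l0 c) with hA
  have hAs : IsStep A := isStep_biUnion Q _ (fun c _ => isStep_Ico _ _)
  have hE : IsStep (O \ A) := hO.diff hAs
  have hAm : ∀ u v, u ≤ v → m A u v ≤ 4 * Q.card * L := by
    intro u v huv
    have : ∀ R : Finset ℝ, R ⊆ Q → m (⋃ c ∈ R, Ico (c - rm L c) (c + rp L l0 c)) u v
        ≤ 4 * R.card * L := by
      intro R
      induction R using Finset.induction_on with
      | empty => intro _; simp [m_empty]
      | insert a R ha ih =>
        intro hR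
        rw [Finset.set_biUnion_insert, Finset.card_insert_of_notMem ha]
        have h1 := ih ((Finset.subset_insert a R).trans hR)
        have haQ := hQ a (hR (Finset.mem_insert_self a R))
        have h2 : rm L a + rp L l0 a ≤ 4 * L := by
          unfold rm rp; nlinarith
        have h3 : 0 ≤ rm L a + rp L l0 a := by
          unfold rm rp; nlinarith [mul_pos hL hl0]
        have h4 := m_Ico_le (a := a - rm L a) (b := a + rp L l0 a) (by linarith) huv
        have h5 := m_union_le (S := Ico (a - rm L a) (a + rp L l0 a))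
          (E := ⋃ c ∈ R, Ico (c - rm L c) (c + rp L l0 c)) measurableSet_Ico
          (isStep_biUnion R _ (fun c _ => isStep_Ico _ _)).meas huv
        push_cast
        linarith
    exact this Q subset_rfl
  refine ⟨O \ A, hE, fun t ht => hsub ht.1, ?_, ?_, ?_, ?_⟩
  · intro c hc t h1 h2 ht
    exact ht.2 (mem_biUnion (x := c) hc ⟨h1.le, h2⟩)
  · intro u v h0 huv hv
    have h1 := m_mono hE.meas hO.meas huv (fun t _ _ h => h.1)
    have h2 := (abs_le.1 (hOle u v h0 huv hv)).2
    linarith
  · intro u v h0 huv hv hc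
    have h1 : m (O \ A) u v = m O u v := m_congr hE.meas hO.meas huv (fun t ht1 ht2 => by
      constructor
      · exact fun h => h.1
      · intro h
        refine ⟨h, ?_⟩
        rw [hA]
        simp only [mem_iUnion, not_exists]
        intro c hcQ hct
        rcases hc c hcQ with h3 | h3
        · linarith [hct.1]
        · linarith [hct.2])
    have h2 := (abs_le.1 (hOle u v h0 huv hv)).1
    linarith
  · intro u v h0 huv hv
    have h1 : m O u v ≤ m ((O \ A) ∪ A) u v := m_mono hO.meas (hE.union hAs).meas huv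
      (fun t _ _ h => by
        by_cases hA : t ∈ A
        · exact Or.inr hA
        · exact Or.inl ⟨h, hA⟩)
    have h2 := m_union_le hE.meas hAs.meas huv
    have h3 := (abs_le.1 (hOle u v h0 huv hv)).1
    have h4 := hAm u v huv
    linarith

/-- constancy off `P` -/
def CO (P : Finset ℝ) (S : Set ℝ) : Prop :=
  ∀ s t, s ≤ t → (∀ p ∈ P, s < p → t < p) → (s ∈ S ↔ t ∈ S)

lemma CO_St (P : Finset ℝ) : CO P (St P) := fun _ _ h h' => St_const h h'

lemma CO.compl {P : Finset ℝ} {S : Set ℝ} (h : CO P S) : CO P Sᶜ := by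
  intro s t hst hp
  have := h s t hst hp
  simp only [mem_compl_iff]; tauto

/-- jumps at `Q` -/
def JP (Q : Finset ℝ) (T : Set ℝ) : Prop :=
  ∀ c ∈ Q, ∀ s t, s < c → c ≤ t → (∀ p ∈ Q, s < p → p ≤ t → p = c) → (s ∈ T ↔ t ∉ T)

lemma JP_St (P : Finset ℝ) : JP P (St P) := fun _ hc _ _ h1 h2 h3 => St_jump hc h1 h2 h3

lemma inter_le {P : Finset ℝ} {S E : Set ℝ} (hS : MeasurableSet S) (hE : MeasurableSet E)
    (hCO : CO P S) {ε κ : ℝ} (hε : 0 < ε) (hε1 : ε ≤ 1 / 4) (hκ : 0 < κ)
    (E3 : ∀ u v, 0 ≤ u → u ≤ v → v ≤ 1 → m E u v ≤ H ε u v + κ) :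
    ∀ n : ℕ, ∀ a b, 0 ≤ a → a ≤ b → b ≤ 1 → (P.filter (fun p => a < p ∧ p < b)).card = n →
      m (S ∩ E) a b ≤ m S a b / 2 + (n + 1) * κ := by
  intro n
  induction n using Nat.strong_induction_on with
  | _ n ih =>
    intro a b ha hab hb hn
    by_cases hne : (P.filter (fun p => a < p ∧ p < b)).Nonempty
    · obtain ⟨p, hp⟩ := hne
      have hp' := (Finset.mem_filter.1 hp).2
      set F1 := P.filter (fun q => a < q ∧ q < p)
      set F2 := P.filter (fun q => p < q ∧ q < b)
      have hcard : F1.card + F2.card + 1 ≤ n := by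
        have hd : Disjoint F1 F2 := by
          rw [Finset.disjoint_left]
          intro q h1 h2
          have := (Finset.mem_filter.1 h1).2
          have := (Finset.mem_filter.1 h2).2
          linarith
        have hpn : p ∉ F1 ∪ F2 := by
          simp [F1, F2]
        rw [← hn, ← Finset.card_union_of_disjoint hd, ← Finset.card_insert_of_notMem hpn]
        apply Finset.card_le_card
        intro q hq
        rcases Finset.mem_insert.1 hq with rfl | hq
        · exact hp
        · rcases Finset.mem_union.1 hq with hq | hq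
          · have := Finset.mem_filter.1 hq
            exact Finset.mem_filter.2 ⟨this.1, this.2.1, this.2.2.trans hp'.2⟩
          · have := Finset.mem_filter.1 hq
            exact Finset.mem_filter.2 ⟨this.1, hp'.1.trans this.2.1, this.2.2⟩
      have h1 := ih F1.card (by omega) a p ha hp'.1.le (by linarith) rfl
      have h2 := ih F2.card (by omega) p b (by linarith) hp'.2.le hb rfl
      have e1 := m_add (hS.inter hE) a p b
      have e2 := m_add hS a p b
      have h3 : ((F1.card : ℝ) + F2.card + 1) ≤ n := by exact_mod_cast hcard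
      nlinarith
    · have hno : ∀ p ∈ P, ¬ (a < p ∧ p < b) := fun p hp h => hne ⟨p, Finset.mem_filter.2 ⟨hp, h⟩⟩
      have hn0 : (0:ℝ) ≤ n := Nat.cast_nonneg n
      by_cases hex : ∃ t, a < t ∧ t < b ∧ t ∈ S
      · obtain ⟨t, h1, h2, h3⟩ := hex
        have hall : ∀ s, a < s → s < b → s ∈ S := by
          intro s hs1 hs2
          rcases le_total s t with h | h
          · exact (hCO s t h (fun p hp h4 => by
              by_contra h5; push Not at h5
              exact hno p hp ⟨by linarith, by linarith⟩)).2 h3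
          · exact (hCO t s h (fun p hp h4 => by
              by_contra h5; push Not at h5
              exact hno p hp ⟨by linarith, by linarith⟩)).1 h3
        have e1 := m_full hS hab hall
        have e2 := m_mono (hS.inter hE) hE hab (fun t _ _ h => h.2)
        have e3 := E3 a b ha hab hb
        have e4 := H_le hε hab hb
        have e5 : 2 * ε * (b - a) ≤ (b - a) / 2 := by nlinarith
        nlinarith [mul_nonneg hn0 hκ.le]
      · push Not at hex
        have e1 : m (S ∩ E) a b = 0 := m_zero (hS.inter hE) hab (fun t h1 h2 h => hex t h1 h2 h.1)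
        have e2 := m_nonneg S hab
        rw [e1]
        nlinarith [mul_nonneg hn0 hκ.le]

/-- `S Δ E` has at least the measure of `E`, up to a small error. -/
lemma symmDiff_ge {P : Finset ℝ} {S E : Set ℝ} (hS : MeasurableSet S) (hE : MeasurableSet E)
    (hCO : CO P S) {ε κ : ℝ} (hε : 0 < ε) (hε1 : ε ≤ 1 / 4) (hκ : 0 < κ)
    (E3 : ∀ u v, 0 ≤ u → u ≤ v → v ≤ 1 → m E u v ≤ H ε u v + κ)
    {a b : ℝ} (ha : 0 ≤ a) (hab : a ≤ b) (hb : b ≤ 1) :
    m E a b - 2 * (P.card + 1) * κ ≤ m (symmDiff S E) a b := by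
  have h1 := inter_le hS hE hCO hε hε1 hκ E3 _ a b ha hab hb rfl
  have h2 : ((P.filter (fun p => a < p ∧ p < b)).card : ℝ) ≤ P.card := by
    exact_mod_cast Finset.card_filter_le _ _
  have h3 := m_symmDiff hS hE a b
  nlinarith

/-- the measure of `T` in an interval around a jump point -/
lemma T_split {Q : Finset ℝ} {T : Set ℝ} (hT : MeasurableSet T) (hCO : CO Q T) (hJP : JP Q T)
    {c a b : ℝ} (hc : c ∈ Q) (hac : a ≤ c) (hcb : c ≤ b) (h : ∀ q ∈ Q, a ≤ q → q ≤ b → q = c) :
    m T a b = c - a ∨ m T a b = b - c := by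
  have h1 : ∀ t, c < t → t < b → (t ∈ T ↔ c ∈ T) := by
    intro t ht1 ht2
    refine (hCO c t ht1.le ?_).symm
    intro p hp h2
    by_contra h3
    push Not at h3
    have := h p hp (by linarith) (by linarith)
    linarith
  have h2 : ∀ t, a < t → t < c → (t ∈ T ↔ c ∉ T) := by
    intro t ht1 ht2
    exact hJP c hc t c ht2 le_rfl (fun p hp h2 h3 => h p hp (by linarith) (by linarith))
  rw [← m_add hT a c b]
  by_cases hcT : c ∈ T
  · right
    rw [m_zero hT hac (fun t h3 h4 => by rw [h2 t h3 h4]; simpa using hcT),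
      m_full hT hcb (fun t h3 h4 => (h1 t h3 h4).2 hcT)]
    ring
  · left
    rw [m_full hT hac (fun t h3 h4 => (h2 t h3 h4).2 hcT),
      m_zero hT hcb (fun t h3 h4 => by rw [h1 t h3 h4]; exact hcT)]
    ring

/-- the measure of `T` in an interval without jump point in the interior -/
lemma T_const {Q : Finset ℝ} {T : Set ℝ} (hT : MeasurableSet T) (hCO : CO Q T)
    {a b : ℝ} (hab : a ≤ b) (h : ∀ q ∈ Q, ¬ (a < q ∧ q < b)) :
    m T a b = 0 ∨ m T a b = b - a := by
  by_cases hex : ∃ t, a < t ∧ t < b ∧ t ∈ T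
  · obtain ⟨t, h1, h2, h3⟩ := hex
    right
    refine m_full hT hab ?_
    intro s hs1 hs2
    rcases le_total s t with h' | h'
    · exact (hCO s t h' (fun p hp h4 => by
        by_contra h5; push Not at h5
        exact h p hp ⟨by linarith, by linarith⟩)).2 h3
    · exact (hCO t s h' (fun p hp h4 => by
        by_contra h5; push Not at h5
        exact h p hp ⟨by linarith, by linarith⟩)).1 h3
  · push Not at hex
    left
    exact m_zero hT hab hex

end R495.TS
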