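import Mathlib
import Pool.Agent.R495.TS.Small

/-!
The comparison of the two intervals of a pair: `m E I < m (S Δ E) J` when `S ∩ I = ∅`.
-/

open MeasureTheory Set

namespace R495.TS

/-- All the data of one perturbation step. -/
structure Ctx (P Q : Finset ℝ) (E : Set ℝ) (ε L l0 κ : ℝ) : Prop where
  hE : MeasurableSet E
  ε0 : 0 < ε
  ε1 : ε ≤ 1 / 100
  L0 : 0 < L
  L1 : 2 * L ≤ l0
  l1 : l0 ≤ 1 / 4
  κ0 : 0 < κ
  κ1 : 20 * (P.card + 2) * κ ≤ ε * L * l0
  LL : 16 * (Q.card + 1) * L ≤ ε * l0 ^ 2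
  Q01 : ∀ c ∈ Q, 0 ≤ c ∧ c ≤ 1
  gapQ : ∀ c ∈ Q, ∀ c' ∈ Q, c < c' → c + 4 * l0 ≤ c'
  gapP : ∀ c ∈ Q, ∀ p ∈ P, c + 4 * l0 ≤ p ∨ p ≤ c - 4 * l0
  E2 : ∀ c ∈ Q, ∀ t, c - rm L c < t → t < c + rp L l0 c → t ∉ E
  E3 : ∀ u v, 0 ≤ u → u ≤ v → v ≤ 1 → m E u v ≤ H ε u v + κ
  E4 : ∀ u v, 0 ≤ u → u ≤ v → v ≤ 1 → (∀ c ∈ Q, v ≤ c - rm L c ∨ c + rp L l0 c ≤ u) →
        H ε u v - κ ≤ m E u v
  E5 : ∀ u v, 0 ≤ u → u ≤ v → v ≤ 1 → H ε u v - κ - 4 * Q.card * L ≤ m E u v

variable {P Q : Finset ℝ} {E : Set ℝ} {ε L l0 κ : ℝ}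

lemma Ctx.l0pos (X : Ctx P Q E ε L l0 κ) : 0 < l0 := by linarith [X.L0, X.L1]

lemma Ctx.κsmall (X : Ctx P Q E ε L l0 κ) : 40 * κ ≤ ε * L * l0 := by
  have h1 := X.κ1
  have h2 : (0:ℝ) ≤ P.card := Nat.cast_nonneg _
  nlinarith [X.κ0, mul_nonneg h2 X.κ0.le]

lemma Ctx.rm_bd (X : Ctx P Q E ε L l0 κ) {c : ℝ} (hc : c ∈ Q) :
    L / 2 ≤ rm L c ∧ rm L c ≤ 2 * L ∧ 0 < rm L c := by
  obtain ⟨h0, h1⟩ := X.Q01 c hc
  have := X.L0
  unfold rm
  refine ⟨?_, ?_, ?_⟩ <;> nlinarith

lemma Ctx.rp_bd (X : Ctx P Q E ε L l0 κ) {c : ℝ} (hc : c ∈ Q) :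
    L / 2 ≤ rp L l0 c ∧ rp L l0 c ≤ 2 * L ∧ 0 < rp L l0 c := by
  obtain ⟨h0, h1⟩ := X.Q01 c hc
  have h2 := X.L0
  have h3 := X.l1
  have h4 := X.l0pos
  unfold rp
  refine ⟨?_, ?_, ?_⟩ <;> nlinarith [mul_pos h2 h4]

/-- the left part is empty inside the radius -/
lemma Ctx.PM_zero (X : Ctx P Q E ε L l0 κ) {c s : ℝ} (hc : c ∈ Q) (hs : 0 ≤ s) (h : s ≤ rm L c) :
    m E (c - s) c = 0 := by
  refine m_zero X.hE (by linarith) (fun t h1 h2 => X.E2 c hc t (by linarith) ?_)
  linarith [(X.rp_bd hc).2.2]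

lemma Ctx.PP_zero (X : Ctx P Q E ε L l0 κ) {c s : ℝ} (hc : c ∈ Q) (hs : 0 ≤ s)
    (h : s ≤ rp L l0 c) : m E c (c + s) = 0 := by
  refine m_zero X.hE (by linarith) (fun t h1 h2 => X.E2 c hc t ?_ (by linarith))
  linarith [(X.rm_bd hc).2.2]

/-- value of the left part beyond the radius -/
lemma Ctx.PM_bd (X : Ctx P Q E ε L l0 κ) {c s : ℝ} (hc : c ∈ Q) (h : rm L c ≤ s) (hs : s ≤ 2 * l0)
    (h0 : 0 ≤ c - s) :
    m E (c - s) c ≤ ε * ((s - rm L c) * (1 + (c - (s + rm L c) / 2))) + κ ∧
    ε * ((s - rm L c) * (1 + (c - (s + rm L c) / 2))) - κ ≤ m E (c - s) c := by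
  have hr := X.rm_bd hc
  have hc1 := (X.Q01 c hc).2
  have e1 : m E (c - s) c = m E (c - s) (c - rm L c) := by
    rw [← m_add X.hE (c - s) (c - rm L c) c, X.PM_zero hc hr.2.2.le le_rfl]; ring
  have e2 : H ε (c - s) (c - rm L c) = ε * ((s - rm L c) * (1 + (c - (s + rm L c) / 2))) := by
    unfold H; ring
  have h3 := X.E3 (c - s) (c - rm L c) h0 (by linarith) (by linarith)
  have h4 := X.E4 (c - s) (c - rm L c) h0 (by linarith) (by linarith) (by
    intro c' hc'
    have hr' := X.rp_bd hc'
    have hr'' := X.rm_bd hc'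
    have := X.L1
    rcases lt_trichotomy c c' with h5 | h5 | h5
    · left
      have := X.gapQ c hc c' hc' h5
      linarith [X.L0]
    · left; rw [← h5]
    · right
      have := X.gapQ c' hc' c hc h5
      linarith [X.L0])
  rw [e1, ← e2]
  exact ⟨h3, h4⟩

lemma Ctx.PP_bd (X : Ctx P Q E ε L l0 κ) {c s : ℝ} (hc : c ∈ Q) (h : rp L l0 c ≤ s)
    (hs : s ≤ 2 * l0) (h0 : c + s ≤ 1) :
    m E c (c + s) ≤ ε * ((s - rp L l0 c) * (1 + (c + (s + rp L l0 c) / 2))) + κ ∧
    ε * ((s - rp L l0 c) * (1 + (c + (s + rp L l0 c) / 2))) - κ ≤ m E c (c + s) := by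
  have hr := X.rp_bd hc
  have hc1 := (X.Q01 c hc).1
  have e1 : m E c (c + s) = m E (c + rp L l0 c) (c + s) := by
    rw [← m_add X.hE c (c + rp L l0 c) (c + s), X.PP_zero hc hr.2.2.le le_rfl]; ring
  have e2 : H ε (c + rp L l0 c) (c + s) = ε * ((s - rp L l0 c) * (1 + (c + (s + rp L l0 c) / 2))) := by
    unfold H; ring
  have h3 := X.E3 (c + rp L l0 c) (c + s) (by linarith) (by linarith) (by linarith)
  have h4 := X.E4 (c + rp L l0 c) (c + s) (by linarith) (by linarith) (by linarith) (by
    intro c' hc'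
    have hr' := X.rp_bd hc'
    have hr'' := X.rm_bd hc'
    have := X.L1
    rcases lt_trichotomy c c' with h5 | h5 | h5
    · left
      have := X.gapQ c hc c' hc' h5
      linarith [X.L0]
    · right; rw [← h5]
    · right
      have := X.gapQ c' hc' c hc h5
      linarith [X.L0])
  rw [e1, ← e2]
  exact ⟨h3, h4⟩

/-- the abstract comparison of two sides -/
lemma cmp_abs {ε κ s ρ ρ' μ μ' v v' d : ℝ} (hε : 0 < ε) (hκ : 2 * κ < ε * d) (hd : ρ' + d ≤ ρ)
    (hd0 : 0 < d)
    (h0 : s ≤ ρ → v = 0) (h1 : ρ ≤ s → v ≤ ε * ((s - ρ) * (1 + μ)) + κ) (h2 : 0 ≤ v')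
    (h3 : ρ' ≤ s → ε * ((s - ρ') * (1 + μ')) - κ ≤ v') (hμ : ρ ≤ s → μ ≤ μ')
    (hμ0 : ρ ≤ s → 0 ≤ μ') :
    v ≤ v' ∧ (ρ ≤ s → v < v') := by
  have key : ρ ≤ s → v < v' := by
    intro h
    have h4 := h1 h
    have h5 := h3 (by linarith)
    have h6 : (s - ρ) * (1 + μ) + d ≤ (s - ρ') * (1 + μ') := by
      have e1 : (s - ρ) * (1 + μ) ≤ (s - ρ) * (1 + μ') :=
        mul_le_mul_of_nonneg_left (by linarith [hμ h]) (by linarith)
      have e2 : (s - ρ + d) * (1 + μ') ≤ (s - ρ') * (1 + μ') :=
        mul_le_mul_of_nonneg_right (by linarith) (by linarith [hμ0 h])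
      have e3 : d ≤ d * (1 + μ') := by nlinarith [hμ0 h]
      nlinarith
    have h7 := mul_le_mul_of_nonneg_left h6 hε.le
    nlinarith
  refine ⟨?_, key⟩
  rcases le_total s ρ with h | h
  · rw [h0 h]; exact h2
  · exact (key h).le

lemma Ctx.κd (X : Ctx P Q E ε L l0 κ) : 2 * κ < ε * (L * l0) := by
  have h1 := X.κsmall
  have h2 := X.κ0
  nlinarith

lemma Ctx.dpos (X : Ctx P Q E ε L l0 κ) : 0 < L * l0 := mul_pos X.L0 X.l0pos

/-- minus to minus -/
lemma Ctx.cmp_mm (X : Ctx P Q E ε L l0 κ) {c c' s : ℝ} (hc : c ∈ Q) (hc' : c' ∈ Q) (h : c < c')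
    (hs0 : 0 ≤ s) (hs : s ≤ l0) (h0 : 0 ≤ c - s) :
    m E (c - s) c ≤ m E (c' - s) c' ∧ (rm L c ≤ s → m E (c - s) c < m E (c' - s) c') := by
  have hg := X.gapQ c hc c' hc' h
  have hl := X.l0pos
  have hL := X.L0
  have h01 := X.Q01 c hc
  have h02 := X.Q01 c' hc'
  have hr := X.rm_bd hc
  have hr' := X.rm_bd hc'
  refine cmp_abs (ε := ε) (κ := κ) (s := s) (ρ := rm L c) (ρ' := rm L c')
    (μ := c - (s + rm L c) / 2) (μ' := c' - (s + rm L c') / 2) (d := L * l0) X.ε0 X.κd ?_ X.dpos
    (fun h1 => X.PM_zero hc hs0 h1) (fun h1 => (X.PM_bd hc h1 (by linarith) h0).1)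
    (m_nonneg _ (by linarith)) (fun h1 => (X.PM_bd hc' h1 (by linarith) (by linarith)).2)
    (fun h1 => ?_) (fun h1 => ?_)
  · unfold rm; nlinarith
  · linarith [X.L1]
  · linarith [X.L1]

/-- minus to plus -/
lemma Ctx.cmp_mp (X : Ctx P Q E ε L l0 κ) {c c' s : ℝ} (hc : c ∈ Q) (hc' : c' ∈ Q) (h : c ≤ c')
    (hs0 : 0 ≤ s) (hs : s ≤ l0) (h0 : 0 ≤ c - s) (h1' : c' + s ≤ 1) :
    m E (c - s) c ≤ m E c' (c' + s) ∧ (rm L c ≤ s → m E (c - s) c < m E c' (c' + s)) := by
  have hl := X.l0pos
  have hL := X.L0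
  have h01 := X.Q01 c hc
  have h02 := X.Q01 c' hc'
  have hr := X.rm_bd hc
  have hr' := X.rp_bd hc'
  refine cmp_abs (ε := ε) (κ := κ) (s := s) (ρ := rm L c) (ρ' := rp L l0 c')
    (μ := c - (s + rm L c) / 2) (μ' := c' + (s + rp L l0 c') / 2) (d := L * l0) X.ε0 X.κd ?_ X.dpos
    (fun h1 => X.PM_zero hc hs0 h1) (fun h1 => (X.PM_bd hc h1 (by linarith) h0).1)
    (m_nonneg _ (by linarith)) (fun h1 => (X.PP_bd hc' h1 (by linarith) (by linarith)).2)
    (fun h1 => ?_) (fun h1 => ?_)
  · unfold rm rp; nlinarith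
  · linarith [X.L1]
  · linarith [X.L1]

/-- plus to minus -/
lemma Ctx.cmp_pm (X : Ctx P Q E ε L l0 κ) {c c' s : ℝ} (hc : c ∈ Q) (hc' : c' ∈ Q) (h : c < c')
    (hs0 : 0 ≤ s) (hs : s ≤ l0) (h0 : c + s ≤ 1) :
    m E c (c + s) ≤ m E (c' - s) c' ∧ (rp L l0 c ≤ s → m E c (c + s) < m E (c' - s) c') := by
  have hg := X.gapQ c hc c' hc' h
  have hl := X.l0pos
  have hL := X.L0
  have h01 := X.Q01 c hc
  have h02 := X.Q01 c' hc'
  have hr := X.rp_bd hc
  have hr' := X.rm_bd hc'
  refine cmp_abs (ε := ε) (κ := κ) (s := s) (ρ := rp L l0 c) (ρ' := rm L c')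
    (μ := c + (s + rp L l0 c) / 2) (μ' := c' - (s + rm L c') / 2) (d := L * l0) X.ε0 X.κd ?_ X.dpos
    (fun h1 => X.PP_zero hc hs0 h1) (fun h1 => (X.PP_bd hc h1 (by linarith) h0).1)
    (m_nonneg _ (by linarith)) (fun h1 => (X.PM_bd hc' h1 (by linarith) (by linarith)).2)
    (fun h1 => ?_) (fun h1 => ?_)
  · unfold rm rp; nlinarith
  · linarith [X.L1]
  · linarith [X.L1]

/-- plus to plus -/
lemma Ctx.cmp_pp (X : Ctx P Q E ε L l0 κ) {c c' s : ℝ} (hc : c ∈ Q) (hc' : c' ∈ Q) (h : c < c')
    (hs0 : 0 ≤ s) (hs : s ≤ l0) (h0 : c + s ≤ 1) (h1' : c' + s ≤ 1) :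
    m E c (c + s) ≤ m E c' (c' + s) ∧ (rp L l0 c ≤ s → m E c (c + s) < m E c' (c' + s)) := by
  have hg := X.gapQ c hc c' hc' h
  have hl := X.l0pos
  have hL := X.L0
  have h01 := X.Q01 c hc
  have h02 := X.Q01 c' hc'
  have hr := X.rp_bd hc
  have hr' := X.rp_bd hc'
  refine cmp_abs (ε := ε) (κ := κ) (s := s) (ρ := rp L l0 c) (ρ' := rp L l0 c')
    (μ := c + (s + rp L l0 c) / 2) (μ' := c' + (s + rp L l0 c') / 2) (d := L * l0) X.ε0 X.κd ?_ X.dpos
    (fun h1 => X.PP_zero hc hs0 h1) (fun h1 => (X.PP_bd hc h1 (by linarith) h0).1)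
    (m_nonneg _ (by linarith)) (fun h1 => (X.PP_bd hc' h1 (by linarith) (by linarith)).2)
    (fun h1 => ?_) (fun h1 => ?_)
  · unfold rp; nlinarith
  · linarith [X.L1]
  · linarith [X.L1]

/-- `S` is constant near `c ∈ Q` -/
lemma Ctx.S_near (X : Ctx P Q E ε L l0 κ) {S : Set ℝ} (hS : CO P S) {c : ℝ} (hc : c ∈ Q) {s t : ℝ}
    (h1 : c - 4 * l0 ≤ s) (h2 : s < c + 4 * l0) (h3 : c - 4 * l0 ≤ t) (h4 : t < c + 4 * l0) :
    s ∈ S ↔ t ∈ S := by
  have key : ∀ s t, c - 4 * l0 ≤ s → s ≤ t → t < c + 4 * l0 → (s ∈ S ↔ t ∈ S) := by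
    intro s t h1 h2 h3
    refine hS s t h2 (fun p hp h4 => ?_)
    rcases X.gapP c hc p hp with h5 | h5
    · linarith
    · linarith
  rcases le_total s t with h | h
  · exact key s t h1 h h4
  · exact (key t s h3 h h2).symm

/-- upper bound of `E` on short intervals -/
lemma Ctx.E_small (X : Ctx P Q E ε L l0 κ) {a b : ℝ} (ha : 0 ≤ a) (hb : b ≤ 1)
    (hl : L / 2 ≤ b - a) : m E a b ≤ 3 * ε * (b - a) := by
  have hab : a ≤ b := by linarith [X.L0]
  have h1 := X.E3 a b ha hab hb
  have h2 := H_le X.ε0 hab hb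
  have h3 := X.κsmall
  have h4 := X.l1
  have h5 : κ ≤ ε * (b - a) := by
    have e1 : ε * L * l0 ≤ ε * L * (1/4) :=
      mul_le_mul_of_nonneg_left h4 (mul_pos X.ε0 X.L0).le
    have e2 : ε * (L / 2) ≤ ε * (b - a) := mul_le_mul_of_nonneg_left hl X.ε0.le
    nlinarith [mul_pos X.ε0 X.L0]
  linarith

/-- The small case. -/
lemma Ctx.small (X : Ctx P Q E ε L l0 κ) {S T : Set ℝ} (hSm : MeasurableSet S) (hS : CO P S)
    (hTm : MeasurableSet T) (hT : CO Q T) (hTJ : JP Q T) {x y l c : ℝ} (hx : 0 ≤ x)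
    (hl0 : 0 < l) (hl : l < l0) (hxy : x + l ≤ y) (hy : y + l ≤ 1) (hc : c ∈ Q) (hxc : x ≤ c)
    (hcx : c ≤ x + l) (hcS : c ∉ S) (hne : x ≤ c - rm L c ∨ c + rp L l0 c ≤ x + l)
    (hTT : m T x (x + l) = m T y (y + l)) :
    m (symmDiff S E) x (x + l) < m (symmDiff S E) y (y + l) := by
  have hSE : MeasurableSet (symmDiff S E) := hSm.symmDiff X.hE
  have hrm := X.rm_bd hc
  have hrp := X.rp_bd hc
  have hL := X.L0
  have hL1 := X.L1
  have hlL : L / 2 ≤ l := by
    rcases hne with h | h <;> linarith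
  have hgap1 : ∀ q ∈ Q, x ≤ q → q ≤ x + l → q = c := by
    intro q hq h1 h2
    rcases lt_trichotomy q c with h | h | h
    · have := X.gapQ q hq c hc h; linarith
    · exact h
    · have := X.gapQ c hc q hq h; linarith
  -- the left interval
  have hI : m (symmDiff S E) x (x + l) = m E x (x + l) := by
    refine m_congr hSE X.hE (by linarith) (fun t h1 h2 => ?_)
    have : t ∉ S := by
      rw [X.S_near hS hc (s := t) (t := c) (by linarith) (by linarith) (by linarith) (by linarith)]
      exact hcS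
    rw [Set.mem_symmDiff]; tauto
  have hIsmall := X.E_small hx (b := x + l) (by linarith) (by linarith)
  have hJsmall := X.E_small (a := y) (b := y + l) (by linarith) hy (by linarith)
  -- case distinction on the right interval when `S ⊇ J`
  have hfull : (∀ t, y < t → t < y + l → t ∈ S) →
      m (symmDiff S E) x (x + l) < m (symmDiff S E) y (y + l) := by
    intro h
    have e1 : m (symmDiff S E) y (y + l) = m Eᶜ y (y + l) := by
      refine m_congr hSE X.hE.compl (by linarith) (fun t h1 h2 => ?_)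
      have := h t h1 h2
      rw [Set.mem_symmDiff, mem_compl_iff]; tauto
    rw [hI, e1, m_compl X.hE]
    have h2 := X.ε1
    nlinarith
  have hemp : (∀ t, y < t → t < y + l → t ∉ S) →
      m (symmDiff S E) y (y + l) = m E y (y + l) := by
    intro h
    refine m_congr hSE X.hE (by linarith) (fun t h1 h2 => ?_)
    have := h t h1 h2
    rw [Set.mem_symmDiff]; tauto
  -- `S` is constant on `J` if `J` is near `c'`
  have hSJ : ∀ c' ∈ Q, c' - 4 * l0 ≤ y → y + l ≤ c' + 4 * l0 →
      (∀ t, y < t → t < y + l → t ∈ S) ∨ (∀ t, y < t → t < y + l → t ∉ S) := by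
    intro c' hc' h1 h2
    by_cases h3 : c' ∈ S
    · left; intro t h4 h5
      rw [X.S_near hS hc' (s := t) (t := c') (by linarith) (by linarith) (by linarith) (by linarith)]
      exact h3
    · right; intro t h4 h5
      rw [X.S_near hS hc' (s := t) (t := c') (by linarith) (by linarith) (by linarith) (by linarith)]
      exact h3
  have hTI := T_split hTm hT hTJ hc hxc hcx hgap1
  by_cases hA : x < c ∧ c < x + l
  · -- case A
    obtain ⟨hA1, hA2⟩ := hA
    -- a point of `Q` in the interior of `J`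
    have hex : ∃ c' ∈ Q, y < c' ∧ c' < y + l := by
      by_contra hcon
      push Not at hcon
      have := T_const hTm hT (a := y) (b := y + l) (by linarith) (fun q hq h => by
        linarith [hcon q hq h.1, h.2])
      rcases hTI with h1 | h1 <;> rcases this with h2 | h2 <;> linarith
    obtain ⟨c', hc', hc1, hc2⟩ := hex
    have hcc : c < c' := by linarith
    have hgap2 : ∀ q ∈ Q, y ≤ q → q ≤ y + l → q = c' := by
      intro q hq h1 h2
      rcases lt_trichotomy q c' with h | h | h
      · have := X.gapQ q hq c' hc' h; linarith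
      · exact h
      · have := X.gapQ c' hc' q hq h; linarith
    have hTJ' := T_split hTm hT hTJ hc' hc1.le hc2.le hgap2
    rcases hSJ c' hc' (by linarith) (by linarith) with hf | he
    · exact hfull hf
    · rw [hI, hemp he, ← m_add X.hE x c (x + l), ← m_add X.hE y c' (y + l)]
      have hab : (c - x = c' - y) ∨ (c - x = y + l - c') := by
        rcases hTI with h1 | h1 <;> rcases hTJ' with h2 | h2
        · left; linarith
        · right; linarith
        · right; linarith
        · left; linarith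
      rcases hab with hab | hab
      · -- same order
        have k1 := X.cmp_mm hc hc' hcc (s := c - x) (by linarith) (by linarith) (by linarith)
        have k2 := X.cmp_pp hc hc' hcc (s := x + l - c) (by linarith) (by linarith) (by linarith)
          (by linarith)
        have e1 : c - (c - x) = x := by ring
        have e2 : c' - (c - x) = y := by linarith
        have e3 : c + (x + l - c) = x + l := by ring
        have e4 : c' + (x + l - c) = y + l := by linarith
        rw [e1, e2] at k1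
        rw [e3, e4] at k2
        rcases hne with h | h
        · have := k1.2 (by linarith); linarith [k2.1]
        · have := k2.2 (by linarith); linarith [k1.1]
      · -- reversed order
        have k1 := X.cmp_mp hc hc' hcc.le (s := c - x) (by linarith) (by linarith) (by linarith)
          (by linarith)
        have k2 := X.cmp_pm hc hc' hcc (s := x + l - c) (by linarith) (by linarith) (by linarith)
        have e1 : c - (c - x) = x := by ring
        have e2 : c' + (c - x) = y + l := by linarith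
        have e3 : c + (x + l - c) = x + l := by ring
        have e4 : c' - (x + l - c) = y := by linarith
        rw [e1, e2] at k1
        rw [e3, e4] at k2
        rcases hne with h | h
        · have := k1.2 (by linarith); linarith [k2.1]
        · have := k2.2 (by linarith); linarith [k1.1]
  · -- case B : `c` is an end point of `I`
    have hB : c = x ∨ c = x + l := by
      by_contra hcon
      push Not at hcon
      exact hA ⟨lt_of_le_of_ne hxc (Ne.symm hcon.1), lt_of_le_of_ne hcx hcon.2⟩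
    have hT0 : m T x (x + l) = 0 ∨ m T x (x + l) = l := by
      rcases hB with h | h <;> rcases hTI with h1 | h1
      · left; linarith
      · right; linarith
      · right; linarith
      · left; linarith
    have hQJ : ∀ c' ∈ Q, ¬ (y < c' ∧ c' < y + l) := by
      rintro c' hc' ⟨hc1, hc2⟩
      have hgap2 : ∀ q ∈ Q, y ≤ q → q ≤ y + l → q = c' := by
        intro q hq h1 h2
        rcases lt_trichotomy q c' with h | h | h
        · have := X.gapQ q hq c' hc' h; linarith
        · exact h
        · have := X.gapQ c' hc' q hq h; linarith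
      have hTJ' := T_split hTm hT hTJ hc' hc1.le hc2.le hgap2
      rcases hT0 with h1 | h1 <;> rcases hTJ' with h2 | h2 <;> linarith
    by_cases hfar : ∀ c' ∈ Q, y + l ≤ c' - rm L c' ∨ c' + rp L l0 c' ≤ y
    · -- far
      have h1 := symmDiff_ge hSm X.hE hS X.ε0 (by linarith [X.ε1]) X.κ0 X.E3 (a := y) (b := y + l)
        (by linarith) (by linarith) hy
      have h2 := X.E4 y (y + l) (by linarith) (by linarith) hy hfar
      have hκ1 := X.κ1
      have hκ0 := X.κ0
      have hcard : (0:ℝ) ≤ P.card := Nat.cast_nonneg _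
      have hε := X.ε0
      have hl1 := X.l1
      have hb : (2 * (P.card : ℝ) + 4) * κ ≤ ε * L / 40 := by
        have e1 : ε * L * l0 ≤ ε * L * (1/4) :=
          mul_le_mul_of_nonneg_left hl1 (mul_pos X.ε0 X.L0).le
        nlinarith [mul_nonneg hcard hκ0.le]
      have hεL := mul_pos hε hL
      have h3 : m E x (x + l) ≤ H ε y (y + l) - ε * (L / 2) + κ := by
        rcases hB with h | h
        · have hr : rp L l0 c ≤ l := by
            rcases hne with h' | h'
            · linarith
            · linarith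
          have k := (X.PP_bd hc hr (by linarith) (by linarith)).1
          rw [← h]
          have e : H ε y (y + l) = ε * (l * (1 + (y + l / 2))) := by unfold H; ring
          rw [e]
          have k2 : (l - rp L l0 c) * (1 + (c + (l + rp L l0 c) / 2)) + L / 2
              ≤ l * (1 + (y + l / 2)) := by
            have e1 : (l - rp L l0 c) * (1 + (c + (l + rp L l0 c) / 2))
              ≤ (l - rp L l0 c) * (1 + (y + l / 2)) :=
              mul_le_mul_of_nonneg_left (by linarith) (by linarith)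
            have e2 : rp L l0 c * 1 ≤ rp L l0 c * (1 + (y + l / 2)) :=
              mul_le_mul_of_nonneg_left (by linarith) (by linarith)
            nlinarith
          have k3 := mul_le_mul_of_nonneg_left k2 hε.le
          nlinarith
        · have hr : rm L c ≤ l := by
            rcases hne with h' | h'
            · linarith
            · linarith
          have k := (X.PM_bd hc hr (by linarith) (by linarith)).1
          have e0 : c - l = x := by linarith
          rw [e0] at k
          rw [← h]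
          have e : H ε y (y + l) = ε * (l * (1 + (y + l / 2))) := by unfold H; ring
          rw [e]
          have k2 : (l - rm L c) * (1 + (c - (l + rm L c) / 2)) + L / 2
              ≤ l * (1 + (y + l / 2)) := by
            have hc0 := (X.Q01 c hc).1
            have e1 : (l - rm L c) * (1 + (c - (l + rm L c) / 2))
              ≤ (l - rm L c) * (1 + (y + l / 2)) :=
              mul_le_mul_of_nonneg_left (by linarith) (by linarith)
            have e2 : rm L c * 1 ≤ rm L c * (1 + (y + l / 2)) :=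
              mul_le_mul_of_nonneg_left (by linarith) (by linarith)
            nlinarith
          have k3 := mul_le_mul_of_nonneg_left k2 hε.le
          nlinarith
      rw [hI]
      nlinarith
    · -- near
      push Not at hfar
      obtain ⟨c', hc', hn1, hn2⟩ := hfar
      have hrm' := X.rm_bd hc'
      have hrp' := X.rp_bd hc'
      rcases hSJ c' hc' (by linarith) (by linarith) with hf | he
      · exact hfull hf
      rw [hI, hemp he]
      have h01 := X.Q01 c hc
      have h01' := X.Q01 c' hc'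
      by_cases hside : c' ≤ y
      · -- `J` is to the right of `c'`
        have hcc : c ≤ c' := by
          by_contra hcon
          push Not at hcon
          have := X.gapQ c' hc' c hc hcon
          linarith
        -- lower bound of the right-hand side
        have hlow : m E c' (c' + l) ≤ m E y (y + l) := by
          have e1 : m E c' y = 0 := by
            have := X.PP_zero hc' (s := y - c') (by linarith) (by linarith)
            rwa [show c' + (y - c') = y by ring] at this
          have e2 := m_add X.hE c' y (y + l)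
          have e3 := m_add X.hE c' (c' + l) (y + l)
          have e4 := m_nonneg E (show c' + l ≤ y + l by linarith)
          linarith
        rcases hB with h | h
        · have hr : rp L l0 c ≤ l := by
            rcases hne with h' | h'
            · linarith
            · linarith
          have hcc' : c < c' := by
            rcases lt_or_eq_of_le hcc with h5 | h5
            · exact h5
            · exfalso
              rw [← h5] at hn2
              linarith
          have k := (X.cmp_pp hc hc' hcc' (s := l) hl0.le hl.le (by linarith) (by linarith)).2 hr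
          rw [h] at k
          linarith
        · have hr : rm L c ≤ l := by
            rcases hne with h' | h'
            · linarith
            · linarith
          have k := (X.cmp_mp hc hc' hcc (s := l) hl0.le hl.le (by linarith) (by linarith)).2 hr
          rw [show c - l = x by linarith] at k
          rw [← h]
          linarith
      · -- `J` is to the left of `c'`
        push Not at hside
        have hcr : y + l ≤ c' := by
          by_contra hcon
          push Not at hcon
          exact hQJ c' hc' ⟨hside, hcon⟩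
        have hcc : c < c' := by linarith
        have hlow : m E (c' - l) c' ≤ m E y (y + l) := by
          have e1 : m E (y + l) c' = 0 := by
            have := X.PM_zero hc' (s := c' - (y + l)) (by linarith) (by linarith)
            rwa [show c' - (c' - (y + l)) = y + l by ring] at this
          have e2 := m_add X.hE y (y + l) c'
          have e3 := m_add X.hE y (c' - l) c'
          have e4 := m_nonneg E (show y ≤ c' - l by linarith)
          linarith
        rcases hB with h | h
        · have hr : rp L l0 c ≤ l := by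
            rcases hne with h' | h'
            · linarith
            · linarith
          have k := (X.cmp_pm hc hc' hcc (s := l) hl0.le hl.le (by linarith)).2 hr
          rw [h] at k
          linarith
        · have hr : rm L c ≤ l := by
            rcases hne with h' | h'
            · linarith
            · linarith
          have k := (X.cmp_mm hc hc' hcc (s := l) hl0.le hl.le (by linarith)).2 hr
          rw [show c - l = x by linarith] at k
          rw [← h]
          linarith

/-- The large case, when `S` misses `I`. -/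
lemma Ctx.large (X : Ctx P Q E ε L l0 κ) {S : Set ℝ} (hSm : MeasurableSet S) (hS : CO P S)
    {x y l : ℝ} (hx : 0 ≤ x) (hl : l0 ≤ l) (hxy : x + l ≤ y) (hy : y + l ≤ 1)
    (hSI : ∀ t, x < t → t < x + l → t ∉ S) :
    m (symmDiff S E) x (x + l) < m (symmDiff S E) y (y + l) := by
  have hSE : MeasurableSet (symmDiff S E) := hSm.symmDiff X.hE
  have hlp := X.l0pos
  have hI : m (symmDiff S E) x (x + l) = m E x (x + l) := by
    refine m_congr hSE X.hE (by linarith) (fun t h1 h2 => ?_)
    have := hSI t h1 h2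
    rw [Set.mem_symmDiff]; tauto
  have h1 := symmDiff_ge hSm X.hE hS X.ε0 (by linarith [X.ε1]) X.κ0 X.E3 (a := y) (b := y + l)
    (by linarith) (by linarith) hy
  have h2 := X.E5 y (y + l) (by linarith) (by linarith) hy
  have h3 := X.E3 x (x + l) hx (by linarith) (by linarith)
  have hε := X.ε0
  have h4 : H ε x (x + l) + ε * l0 ^ 2 ≤ H ε y (y + l) := by
    have e1 : H ε y (y + l) - H ε x (x + l) = ε * (l * (y - x)) := by unfold H; ring
    have e2 : l0 ^ 2 ≤ l * (y - x) := by nlinarith
    have e3 := mul_le_mul_of_nonneg_left e2 hε.le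
    linarith
  have hκ1 := X.κ1
  have hκ0 := X.κ0
  have hLL := X.LL
  have hL1 := X.L1
  have hL := X.L0
  have hcard : (0:ℝ) ≤ P.card := Nat.cast_nonneg _
  have hcardQ : (0:ℝ) ≤ Q.card := Nat.cast_nonneg _
  have hb : (2 * (P.card : ℝ) + 4) * κ ≤ ε * l0 ^ 2 / 20 := by
    have e1 : ε * L * l0 ≤ ε * l0 * l0 / 2 := by
      have := mul_le_mul_of_nonneg_left hL1 (mul_pos hε hlp).le
      nlinarith
    nlinarith [mul_nonneg hcard hκ0.le]
  have hb2 : 4 * (Q.card : ℝ) * L ≤ ε * l0 ^ 2 / 4 := by nlinarith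
  have hp : 0 < ε * l0 ^ 2 := by positivity
  rw [hI]
  nlinarith

end R495.TS
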