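import Mathlib
import Pool.Agent.R495.TS.Compare

/-!
The step lemma and the construction of the two sets on `[0,1]`.
-/

open MeasureTheory Set Filter Topology

namespace R495.TS

/-- the invariant of the construction -/
def Good (P Q : Finset ℝ) : Prop :=
  (∀ p ∈ P, 0 ≤ p ∧ p ≤ 1) ∧ (∀ q ∈ Q, 0 ≤ q ∧ q ≤ 1) ∧ Disjoint P Q ∧
  ∀ x y l, 0 ≤ x → 0 < l → x + l ≤ y → y + l ≤ 1 →
    m (St P) x (x + l) = m (St P) y (y + l) → m (St Q) x (x + l) = m (St Q) y (y + l) →
    (∀ p ∈ P, ¬ (x ≤ p ∧ p ≤ x + l)) ∨ (∀ q ∈ Q, ¬ (x ≤ q ∧ q ≤ x + l))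

lemma Good.symm {P Q : Finset ℝ} (h : Good P Q) : Good Q P := by
  obtain ⟨h1, h2, h3, h4⟩ := h
  exact ⟨h2, h1, h3.symm, fun x y l a b c d e f => (h4 x y l a b c d f e).symm⟩

lemma Good_empty : Good ∅ ∅ := by
  refine ⟨by simp, by simp, by simp, fun x y l _ _ _ _ _ _ => Or.inl (by simp)⟩

/-- the distance of the two intervals -/
noncomputable def gapf (A B : Set ℝ) (x y l : ℝ) : ℝ :=
  |m A x (x + l) - m A y (y + l)| + |m B x (x + l) - m B y (y + l)|

lemma compact_gap {A B : Set ℝ} (hA : MeasurableSet A) (hB : MeasurableSet B)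
    {K : Set (ℝ × ℝ × ℝ)} (hK : IsCompact K)
    (h : ∀ z ∈ K, m A z.1 (z.1 + z.2.2) = m A z.2.1 (z.2.1 + z.2.2) →
      m B z.1 (z.1 + z.2.2) = m B z.2.1 (z.2.1 + z.2.2) → False) :
    ∃ e > 0, ∀ z ∈ K, e ≤ gapf A B z.1 z.2.1 z.2.2 := by
  rcases K.eq_empty_or_nonempty with h0 | h0
  · exact ⟨1, one_pos, by simp [h0]⟩
  · have c1 : ∀ {A : Set ℝ}, MeasurableSet A → Continuous fun z : ℝ × ℝ × ℝ =>
        m A z.1 (z.1 + z.2.2) - m A z.2.1 (z.2.1 + z.2.2) := by
      intro A hA
      have h1 : Continuous fun z : ℝ × ℝ × ℝ => m A z.1 (z.1 + z.2.2) :=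
        (continuous_m hA).comp (continuous_fst.prodMk (continuous_fst.add continuous_snd.snd))
      have h2 : Continuous fun z : ℝ × ℝ × ℝ => m A z.2.1 (z.2.1 + z.2.2) :=
        (continuous_m hA).comp
          (continuous_snd.fst.prodMk (continuous_snd.fst.add continuous_snd.snd))
      exact h1.sub h2
    have hc : Continuous fun z : ℝ × ℝ × ℝ => gapf A B z.1 z.2.1 z.2.2 :=
      ((c1 hA).abs).add ((c1 hB).abs)
    obtain ⟨z, hz, hmin⟩ := hK.exists_isMinOn h0 hc.continuousOn
    refine ⟨gapf A B z.1 z.2.1 z.2.2, ?_, fun w hw => hmin hw⟩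
    have h1 : 0 ≤ gapf A B z.1 z.2.1 z.2.2 := by unfold gapf; positivity
    refine lt_of_le_of_ne h1 (fun h2 => ?_)
    have h3 := abs_nonneg (m A z.1 (z.1 + z.2.2) - m A z.2.1 (z.2.1 + z.2.2))
    have h4 := abs_nonneg (m B z.1 (z.1 + z.2.2) - m B z.2.1 (z.2.1 + z.2.2))
    unfold gapf at h2
    have h5 : |m A z.1 (z.1 + z.2.2) - m A z.2.1 (z.2.1 + z.2.2)| = 0 := by linarith
    have h6 : |m B z.1 (z.1 + z.2.2) - m B z.2.1 (z.2.1 + z.2.2)| = 0 := by linarith
    exact h z hz (by linarith [abs_eq_zero.1 h5]) (by linarith [abs_eq_zero.1 h6])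

lemma compact_base {d : ℝ} : IsCompact {z : ℝ × ℝ × ℝ | 0 ≤ z.1 ∧ z.1 + z.2.2 ≤ z.2.1 ∧
    z.2.1 + z.2.2 ≤ 1 ∧ d ≤ z.2.2 ∧ 0 ≤ z.2.2} := by
  have hb : IsCompact ((Icc (0:ℝ) 1) ×ˢ (Icc (0:ℝ) 1) ×ˢ (Icc (0:ℝ) 1)) :=
    isCompact_Icc.prod (isCompact_Icc.prod isCompact_Icc)
  refine hb.of_isClosed_subset ?_ ?_
  · refine IsClosed.inter (isClosed_le continuous_const continuous_fst) (IsClosed.inter
      (isClosed_le (continuous_fst.add continuous_snd.snd) continuous_snd.fst) (IsClosed.inter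
      (isClosed_le (continuous_snd.fst.add continuous_snd.snd) continuous_const)
      (IsClosed.inter (isClosed_le continuous_const continuous_snd.snd)
      (isClosed_le continuous_const continuous_snd.snd))))
  · rintro ⟨x, y, l⟩ ⟨h1, h2, h3, h4, h5⟩
    simp only at h1 h2 h3 h4 h5
    simp only [mem_prod, mem_Icc]
    refine ⟨⟨h1, by linarith⟩, ⟨by linarith, by linarith⟩, ⟨h5, by linarith⟩⟩

lemma closed_hit (P : Finset ℝ) :
    IsClosed {z : ℝ × ℝ × ℝ | ∃ p ∈ P, z.1 ≤ p ∧ p ≤ z.1 + z.2.2} := by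
  have : {z : ℝ × ℝ × ℝ | ∃ p ∈ P, z.1 ≤ p ∧ p ≤ z.1 + z.2.2}
      = ⋃ p ∈ (P : Set ℝ), {z : ℝ × ℝ × ℝ | z.1 ≤ p ∧ p ≤ z.1 + z.2.2} := by
    ext z
    simp only [mem_setOf_eq, mem_iUnion, Finset.mem_coe, exists_prop]
  rw [this]
  refine P.finite_toSet.isClosed_biUnion (fun p _ => ?_)
  exact IsClosed.inter (isClosed_le continuous_fst continuous_const)
    (isClosed_le continuous_const (continuous_fst.add continuous_snd.snd))

/-- positive gap of a finite set -/
lemma exists_gap (F : Finset ℝ) : ∃ g > 0, ∀ u ∈ F, ∀ v ∈ F, u < v → u + g ≤ v := by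
  set D := (F ×ˢ F).filter (fun z => z.1 < z.2) with hD
  rcases D.eq_empty_or_nonempty with h0 | h0
  · refine ⟨1, one_pos, fun u hu v hv huv => ?_⟩
    exfalso
    have : (u, v) ∈ D := by simp [hD, hu, hv, huv]
    rw [h0] at this
    simp at this
  · obtain ⟨z, hz, hmin⟩ := D.exists_min_image (fun z => z.2 - z.1) h0
    have hz' := (Finset.mem_filter.1 hz).2
    refine ⟨z.2 - z.1, by linarith, fun u hu v hv huv => ?_⟩
    have := hmin (u, v) (by simp [hD, hu, hv, huv])
    simp only at this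
    linarith

/-- in every interval of length `δ` there is an interval of length `lam` far from `F` -/
lemma exists_free (F : Finset ℝ) {δ : ℝ} (hδ : 0 < δ) : ∃ lam > 0, ∀ a : ℝ, ∃ a', a ≤ a' ∧
    a' + lam ≤ a + δ ∧ ∀ p ∈ F, p ≤ a' - lam ∨ a' + 2 * lam ≤ p := by
  induction F using Finset.induction_on with
  | empty => exact ⟨δ, hδ, fun a => ⟨a, le_rfl, le_rfl, by simp⟩⟩
  | insert p F hp ih =>
    obtain ⟨lam, hlam, h⟩ := ih
    refine ⟨lam / 6, by positivity, fun a => ?_⟩
    obtain ⟨a', h1, h2, h3⟩ := h a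
    by_cases hpa : p ≤ a' + lam / 2
    · refine ⟨a' + 5 * lam / 6, by linarith, by linarith, ?_⟩
      intro q hq
      rcases Finset.mem_insert.1 hq with rfl | hq
      · left; linarith
      · rcases h3 q hq with h4 | h4
        · left; linarith
        · right; linarith
    · push Not at hpa
      refine ⟨a', h1, by linarith, ?_⟩
      intro q hq
      rcases Finset.mem_insert.1 hq with rfl | hq
      · right; linarith
      · rcases h3 q hq with h4 | h4
        · left; linarith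
        · right; linarith

lemma symmDiff_compl_left (S E : Set ℝ) : symmDiff Sᶜ E = (symmDiff S E)ᶜ := by
  ext t; simp only [Set.mem_symmDiff, mem_compl_iff]; tauto

/-- The step lemma. -/
lemma step {P Q : Finset ℝ} (hG : Good P Q) {δ : ℝ} (hδ : 0 < δ) :
    ∃ P' : Finset ℝ, Good P' Q ∧ (∀ a, 0 ≤ a → a + δ ≤ 1 → ∃ p ∈ P', a ≤ p ∧ p ≤ a + δ) ∧
      m (symmDiff (St P) (St P')) 0 1 ≤ δ := by
  obtain ⟨hP01, hQ01, hdisj, hstar⟩ := hG
  -- constants
  obtain ⟨g, hg, hgap⟩ := exists_gap (P ∪ Q)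
  set l0 : ℝ := min (1/4) (g/4) with hl0def
  have hl0 : 0 < l0 := lt_min (by norm_num) (by positivity)
  have hl01 : l0 ≤ 1/4 := min_le_left _ _
  have hl0g : 4 * l0 ≤ g := by have := min_le_right (1/4) (g/4); linarith
  obtain ⟨e0, he0, hgap0⟩ : ∃ e > 0, ∀ z ∈ ({z : ℝ × ℝ × ℝ | 0 ≤ z.1 ∧ z.1 + z.2.2 ≤ z.2.1 ∧
      z.2.1 + z.2.2 ≤ 1 ∧ l0 ≤ z.2.2 ∧ 0 ≤ z.2.2} ∩
      ({z : ℝ × ℝ × ℝ | ∃ p ∈ P, z.1 ≤ p ∧ p ≤ z.1 + z.2.2} ∩
       {z : ℝ × ℝ × ℝ | ∃ p ∈ Q, z.1 ≤ p ∧ p ≤ z.1 + z.2.2})),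
        e ≤ gapf (St P) (St Q) z.1 z.2.1 z.2.2 := by
    refine compact_gap (St_meas P) (St_meas Q)
      (compact_base.inter_right ((closed_hit P).inter (closed_hit Q))) ?_
    rintro ⟨x, y, l⟩ ⟨⟨h1, h2, h3, h4, h5⟩, ⟨p, hp, hp'⟩, ⟨q, hq, hq'⟩⟩ h6 h7
    simp only at h1 h2 h3 h4 h5 h6 h7 hp' hq'
    rcases hstar x y l h1 (by linarith) h2 h3 h6 h7 with h8 | h8
    · exact h8 p hp hp'
    · exact h8 q hq hq'
  set ε : ℝ := min (1/100) (min (e0/20) (δ/10)) with hεdef
  have hε : 0 < ε := lt_min (by norm_num) (lt_min (by positivity) (by positivity))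
  have hε1 : ε ≤ 1/100 := min_le_left _ _
  have hεe : 20 * ε ≤ e0 := by
    have : ε ≤ e0/20 := (min_le_right _ _).trans (min_le_left _ _)
    linarith
  have hεδ : 10 * ε ≤ δ := by
    have : ε ≤ δ/10 := (min_le_right _ _).trans (min_le_right _ _)
    linarith
  obtain ⟨lam, hlam, hfree⟩ := exists_free (P ∪ Q) hδ
  set n : ℝ := (Q.card : ℝ) with hn
  have hn0 : 0 ≤ n := Nat.cast_nonneg _
  set L : ℝ := min (l0/2) (min (lam/4) (ε * l0^2 / (16 * (n+1)))) with hLdef
  have hL : 0 < L := lt_min (by positivity) (lt_min (by positivity) (by positivity))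
  have hLl : 2 * L ≤ l0 := by have : L ≤ l0/2 := min_le_left _ _; linarith
  have hLlam : 4 * L ≤ lam := by
    have : L ≤ lam/4 := (min_le_right _ _).trans (min_le_left _ _); linarith
  have hLn : 16 * (n+1) * L ≤ ε * l0^2 := by
    have h1 : L ≤ ε * l0^2 / (16 * (n+1)) := (min_le_right _ _).trans (min_le_right _ _)
    rw [le_div_iff₀ (by positivity)] at h1
    linarith
  set κ : ℝ := ε * L * l0 / (20 * (P.card + 2)) with hκdef
  have hκ : 0 < κ := by positivity
  have hκ1 : 20 * ((P.card : ℝ) + 2) * κ ≤ ε * L * l0 := by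
    rw [hκdef, mul_div_cancel₀]
    positivity
  obtain ⟨E, hEs, hE01, hE2, hE3, hE4, hE5⟩ := exists_E Q hQ01 hε (by linarith) hL hl0 hl01 hκ
  have hgapPQ : ∀ c ∈ Q, ∀ p ∈ P, c + 4 * l0 ≤ p ∨ p ≤ c - 4 * l0 := by
    intro c hc p hp
    have hne : p ≠ c := fun h => Finset.disjoint_left.1 hdisj hp (h ▸ hc)
    rcases lt_or_gt_of_ne hne with h | h
    · right
      have := hgap p (Finset.mem_union_left _ hp) c (Finset.mem_union_right _ hc) h
      linarith
    · left
      have := hgap c (Finset.mem_union_right _ hc) p (Finset.mem_union_left _ hp) h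
      linarith
  have X : Ctx P Q E ε L l0 κ :=
    { hE := hEs.meas, ε0 := hε, ε1 := hε1, L0 := hL, L1 := hLl, l1 := hl01, κ0 := hκ, κ1 := hκ1
      LL := hLn, Q01 := hQ01
      gapQ := fun c hc c' hc' h => by
        have := hgap c (Finset.mem_union_right _ hc) c' (Finset.mem_union_right _ hc') h
        linarith
      gapP := hgapPQ, E2 := hE2, E3 := hE3, E4 := hE4, E5 := hE5 }
  obtain ⟨R, hR⟩ := hEs
  set S := St P with hS
  have hSm : MeasurableSet S := St_meas P
  have hCO : CO P S := CO_St P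
  refine ⟨symmDiff P R, ?_, ?_, ?_⟩
  · -- Good
    have hSt : St (symmDiff P R) = symmDiff S E := by rw [St_symmDiff, ← hR]
    have hcell : ∀ c ∈ Q, ∀ p ∈ symmDiff P R, ¬ (c - rm L c < p ∧ p < c + rp L l0 c) := by
      intro c hc p hp
      refine St_no_jump ?_ hp
      intro s t h1 h2 h3
      have hrm := X.rm_bd hc
      have hrp := X.rp_bd hc
      rw [hSt]
      have e1 := hE2 c hc s h1 (by linarith)
      have e2 := hE2 c hc t (by linarith) h3
      have e3 := X.S_near hCO hc (s := s) (t := t) (by linarith) (by linarith) (by linarith)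
        (by linarith)
      simp only [Set.mem_symmDiff]
      tauto
    refine ⟨?_, hQ01, ?_, ?_⟩
    · intro p hp
      constructor
      · by_contra hcon
        push Not at hcon
        refine St_no_jump (a := p - 1) (b := 0) ?_ hp ⟨by linarith, hcon⟩
        intro s t h1 h2 h3
        rw [hSt]
        have e1 : s ∉ E := fun h => by linarith [(hE01 h).1]
        have e2 : t ∉ E := fun h => by linarith [(hE01 h).1]
        have e3 := hCO s t h2 (fun q hq _ => by linarith [(hP01 q hq).1])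
        simp only [Set.mem_symmDiff]
        tauto
      · by_contra hcon
        push Not at hcon
        refine St_no_jump (a := 1) (b := p + 1) ?_ hp ⟨hcon, by linarith⟩
        intro s t h1 h2 h3
        rw [hSt]
        have e1 : s ∉ E := fun h => by linarith [(hE01 h).2]
        have e2 : t ∉ E := fun h => by linarith [(hE01 h).2]
        have e3 := hCO s t h2 (fun q hq h4 => by linarith [(hP01 q hq).2])
        simp only [Set.mem_symmDiff]
        tauto
    · rw [Finset.disjoint_left]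
      intro p hp hpQ
      exact hcell p hpQ p hp ⟨by linarith [(X.rm_bd hpQ).2.2], by linarith [(X.rp_bd hpQ).2.2]⟩
    · intro x y l hx hl hxy hy h1 h2
      rw [hSt] at h1
      by_contra hcon
      push Not at hcon
      obtain ⟨⟨p', hp', hp'x, hp'l⟩, ⟨c, hc, hcx, hcl⟩⟩ := hcon
      -- the complement
      have hcompl : m (symmDiff Sᶜ E) x (x + l) = m (symmDiff Sᶜ E) y (y + l) := by
        rw [symmDiff_compl_left, m_compl (hSm.symmDiff X.hE), m_compl (hSm.symmDiff X.hE), h1]
        ring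
      by_cases hbig : l0 ≤ l
      · by_cases hPI : ∃ p ∈ P, x ≤ p ∧ p ≤ x + l
        · have h3 := hgap0 (x, y, l) ⟨⟨hx, hxy, hy, hbig, hl.le⟩, hPI, ⟨c, hc, hcx, hcl⟩⟩
          simp only [gapf] at h3
          rw [h2, sub_self, abs_zero, add_zero] at h3
          have hEt : m E 0 1 ≤ 3 * ε := by
            have e1 := hE3 0 1 le_rfl zero_le_one le_rfl
            have e2 := H_le hε zero_le_one le_rfl
            have e3 := X.κsmall
            have e4 : ε * L * l0 ≤ ε * 1 * 1 := by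
              have : L ≤ 1 := by linarith
              have : l0 ≤ 1 := by linarith
              gcongr
            linarith
          have k1 : |m S x (x + l) - m (symmDiff S E) x (x + l)| ≤ m E x (x + l) :=
            m_sub_le hSm (hSm.symmDiff X.hE) X.hE (by linarith) (fun t ht => by
              rw [Set.mem_symmDiff]; tauto)
          have k2 : |m S y (y + l) - m (symmDiff S E) y (y + l)| ≤ m E y (y + l) :=
            m_sub_le hSm (hSm.symmDiff X.hE) X.hE (by linarith) (fun t ht => by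
              rw [Set.mem_symmDiff]; tauto)
          have k3 : m E x (x + l) ≤ m E 0 1 := m_sub_interval X.hE hx (by linarith) (by linarith)
          have k4 : m E y (y + l) ≤ m E 0 1 :=
            m_sub_interval X.hE (by linarith) (by linarith) (by linarith)
          rw [abs_le] at k1 k2
          have k5 : |m S x (x + l) - m S y (y + l)| ≤ 6 * ε := by
            rw [abs_le]; constructor <;> linarith [k1.1, k1.2, k2.1, k2.2]
          linarith
        · push Not at hPI
          have hconst : ∀ t, x < t → t < x + l → (x ∈ S ↔ t ∈ S) := by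
            intro t ht1 ht2
            refine hCO x t ht1.le (fun p hp h3 => ?_)
            have := hPI p hp h3.le
            linarith
          by_cases hxS : x ∈ S
          · have := X.large hSm.compl hCO.compl hx hbig hxy hy (fun t ht1 ht2 => by
              have := hconst t ht1 ht2
              simp only [mem_compl_iff]; tauto)
            linarith
          · have := X.large hSm hCO hx hbig hxy hy (fun t ht1 ht2 => by
              have := hconst t ht1 ht2
              tauto)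
            linarith
      · push Not at hbig
        have hne : x ≤ c - rm L c ∨ c + rp L l0 c ≤ x + l := by
          by_contra hcon
          push Not at hcon
          exact hcell c hc p' hp' ⟨by linarith, by linarith⟩
        by_cases hcS : c ∈ S
        · have := X.small hSm.compl hCO.compl (St_meas Q) (CO_St Q) (JP_St Q) hx hl hbig hxy hy hc
            hcx hcl (by simpa using hcS) hne h2
          linarith
        · have := X.small hSm hCO (St_meas Q) (CO_St Q) (JP_St Q) hx hl hbig hxy hy hc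
            hcx hcl hcS hne h2
          linarith
  · -- density
    intro a ha haδ
    by_contra hcon
    push Not at hcon
    have hSt : St (symmDiff P R) = symmDiff S E := by rw [St_symmDiff, ← hR]
    obtain ⟨a', h1, h2, h3⟩ := hfree a
    have hconst' : ∀ t, a' < t → t < a' + lam → (a' ∈ symmDiff S E ↔ t ∈ symmDiff S E) := by
      intro t ht1 ht2
      rw [← hSt]
      refine CO_St _ a' t ht1.le (fun p hp h4 => ?_)
      have := hcon p hp (by linarith)
      linarith
    have hconstS : ∀ t, a' < t → t < a' + lam → (a' ∈ S ↔ t ∈ S) := by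
      intro t ht1 ht2
      refine hCO a' t ht1.le (fun p hp h4 => ?_)
      rcases h3 p (Finset.mem_union_left _ hp) with h5 | h5 <;> linarith
    have hconstE : ∀ t, a' < t → t < a' + lam → (a' ∈ E ↔ t ∈ E) := by
      intro t ht1 ht2
      have k1 := hconst' t ht1 ht2
      have k2 := hconstS t ht1 ht2
      simp only [Set.mem_symmDiff] at k1
      tauto
    have u1 := hE3 a' (a' + lam) (by linarith) (by linarith) (by linarith)
    have u2 := hE4 a' (a' + lam) (by linarith) (by linarith) (by linarith) (by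
      intro c hc
      have hrm := X.rm_bd hc
      have hrp := X.rp_bd hc
      rcases h3 c (Finset.mem_union_right _ hc) with h5 | h5
      · right; linarith
      · left; linarith)
    have u3 := H_le hε (show a' ≤ a' + lam by linarith) (by linarith)
    have u4 : ε * lam ≤ H ε a' (a' + lam) := by
      unfold H
      apply mul_le_mul_of_nonneg_left _ hε.le
      nlinarith
    have u5 : κ < ε * lam / 4 := by
      have e1 := X.κsmall
      have e2 : ε * L * l0 ≤ ε * (lam/4) * 1 := by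
        have : L ≤ lam/4 := by linarith
        have : l0 ≤ 1 := by linarith
        gcongr
      have := mul_pos hε hlam
      nlinarith
    have hEm : MeasurableSet E := X.hE
    by_cases hE : a' ∈ E
    · have := m_full hEm (show a' ≤ a' + lam by linarith) (fun t h1 h2 => (hconstE t h1 h2).1 hE)
      nlinarith
    · have := m_zero hEm (show a' ≤ a' + lam by linarith)
        (fun t h1 h2 h => hE ((hconstE t h1 h2).2 h))
      have := mul_pos hε hlam
      linarith
  · have hEm : MeasurableSet E := X.hE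
    have hSt : St (symmDiff P R) = symmDiff S E := by rw [St_symmDiff, ← hR]
    rw [hSt, symmDiff_symmDiff_cancel_left]
    have e1 := hE3 0 1 le_rfl zero_le_one le_rfl
    have e2 := H_le hε zero_le_one le_rfl
    have e3 := X.κsmall
    have e4 : ε * L * l0 ≤ ε * 1 * 1 := by
      have : L ≤ 1 := by linarith
      have : l0 ≤ 1 := by linarith
      gcongr
    linarith

/-- a state of the construction -/
structure State where
  P : Finset ℝ
  Q : Finset ℝ
  b : ℝ
  b0 : 0 < b
  good : Good P Q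

lemma next (s : State) {δ : ℝ} (hδ : 0 < δ) :
    ∃ s' : State, s'.b ≤ s.b / 2 ∧ m (symmDiff (St s.P) (St s'.P)) 0 1 ≤ s.b ∧
      m (symmDiff (St s.Q) (St s'.Q)) 0 1 ≤ s.b ∧
      ∀ x y l, 0 ≤ x → δ ≤ l → x + l ≤ y → y + l ≤ 1 →
        16 * s'.b ≤ gapf (St s'.P) (St s'.Q) x y l := by
  obtain ⟨P, Q, b, b0, good⟩ := s
  set d := min b δ with hd
  have hd0 : 0 < d := lt_min b0 hδ
  obtain ⟨P', hP1, hP2, hP3⟩ := step good hd0
  obtain ⟨Q', hQ1, hQ2, hQ3⟩ := step hP1.symm hd0
  obtain ⟨e, he, hgap⟩ := compact_gap (St_meas P') (St_meas Q') (compact_base (d := δ)) (by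
    rintro ⟨x, y, l⟩ ⟨h1, h2, h3, h4, h5⟩ h6 h7
    simp only at h1 h2 h3 h4 h5 h6 h7
    have hdδ : d ≤ δ := min_le_right _ _
    rcases hQ1.symm.2.2.2 x y l h1 (by linarith) h2 h3 h6 h7 with h8 | h8
    · obtain ⟨p, hp, hp1, hp2⟩ := hP2 x h1 (by linarith)
      exact h8 p hp ⟨hp1, by linarith⟩
    · obtain ⟨p, hp, hp1, hp2⟩ := hQ2 x h1 (by linarith)
      exact h8 p hp ⟨hp1, by linarith⟩)
  refine ⟨⟨P', Q', min (b/2) (e/16), lt_min (by positivity) (by positivity), hQ1.symm⟩,
    min_le_left _ _, hP3.trans (min_le_left _ _), hQ3.trans (min_le_left _ _), ?_⟩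
  intro x y l h1 h2 h3 h4
  have h5 := hgap (x, y, l) ⟨h1, h3, h4, h2, by linarith⟩
  have h6 : min (b/2) (e/16) ≤ e/16 := min_le_right _ _
  simp only at h5 ⊢
  linarith

/-- the sequence -/
noncomputable def seq : ℕ → State
  | 0 => ⟨∅, ∅, 1, one_pos, Good_empty⟩
  | k + 1 => (next (seq k) (δ := 1 / ((k:ℝ) + 2)) (by positivity)).choose

lemma seq_spec (k : ℕ) : (seq (k+1)).b ≤ (seq k).b / 2 ∧
    m (symmDiff (St (seq k).P) (St (seq (k+1)).P)) 0 1 ≤ (seq k).b ∧
      m (symmDiff (St (seq k).Q) (St (seq (k+1)).Q)) 0 1 ≤ (seq k).b ∧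
      ∀ x y l, 0 ≤ x → 1 / ((k:ℝ) + 2) ≤ l → x + l ≤ y → y + l ≤ 1 →
        16 * (seq (k+1)).b ≤ gapf (St (seq (k+1)).P) (St (seq (k+1)).Q) x y l :=
  (next (seq k) (δ := 1 / ((k:ℝ) + 2)) (by positivity)).choose_spec

lemma seq_b (k j : ℕ) : (seq (k + j)).b ≤ (seq k).b * (1/2)^j := by
  induction j with
  | zero => simp
  | succ j ih =>
    have h := (seq_spec (k + j)).1
    rw [← add_assoc]
    refine h.trans ?_
    rw [pow_succ]
    linarith

lemma m_iUnion_le {A : ℕ → Set ℝ} (hA : ∀ j, MeasurableSet (A j)) {f : ℕ → ℝ} (hf0 : ∀ j, 0 ≤ f j)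
    (hf : Summable f) (h : ∀ j, m (A j) 0 1 ≤ f j) : m (⋃ j, A j) 0 1 ≤ ∑' j, f j := by
  rw [m_eq_volume (MeasurableSet.iUnion hA) zero_le_one]
  apply ENNReal.toReal_le_of_le_ofReal (tsum_nonneg hf0)
  rw [inter_iUnion]
  refine (measure_iUnion_le _).trans ?_
  rw [ENNReal.ofReal_tsum_of_nonneg hf0 hf]
  refine ENNReal.tsum_le_tsum (fun j => ?_)
  have h1 := h j
  rw [m_eq_volume (hA j) zero_le_one] at h1
  have hfin : volume (Icc (0:ℝ) 1 ∩ A j) ≠ ⊤ := by
    refine ne_top_of_le_ne_top ?_ (measure_mono inter_subset_left)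
    simp
  rw [← ENNReal.ofReal_toReal hfin]
  exact ENNReal.ofReal_le_ofReal h1

/-- the limit of a sequence of sets -/
lemma limit_set (A : ℕ → Set ℝ) (hA : ∀ j, MeasurableSet (A j)) (b : ℕ → ℝ) (hb0 : ∀ k, 0 ≤ b k)
    (hb : ∀ k j, b (k + j) ≤ b k * (1/2)^j)
    (h : ∀ k, m (symmDiff (A k) (A (k+1))) 0 1 ≤ b k) :
    ∃ S : Set ℝ, MeasurableSet S ∧ ∀ k u v, 0 ≤ u → u ≤ v → v ≤ 1 →
      |m S u v - m (A k) u v| ≤ 2 * b k := by
  refine ⟨⋃ n, ⋂ k, A (n + k), MeasurableSet.iUnion fun n => MeasurableSet.iInter fun k => hA _, ?_⟩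
  intro k u v hu huv hv
  set D : Set ℝ := ⋃ j, symmDiff (A (k + j)) (A (k + j + 1)) with hD
  have hDm : ∀ j, MeasurableSet (symmDiff (A (k + j)) (A (k + j + 1))) :=
    fun j => (hA _).symmDiff (hA _)
  have hDm' : MeasurableSet D := MeasurableSet.iUnion hDm
  have h1 : m D 0 1 ≤ 2 * b k := by
    have hs : Summable fun j : ℕ => b k * (1/2 : ℝ)^j := summable_geometric_two.mul_left _
    have := m_iUnion_le hDm (f := fun j => b k * (1/2 : ℝ)^j)
      (fun j => mul_nonneg (hb0 k) (by positivity)) hs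
      (fun j => (h (k + j)).trans (hb k j))
    rw [tsum_mul_left, tsum_geometric_two] at this
    linarith
  have h2 : ∀ t, t ∉ D → ∀ j, (t ∈ A (k + j) ↔ t ∈ A k) := by
    intro t ht j
    induction j with
    | zero => simp
    | succ j ih =>
      have h3 : t ∉ symmDiff (A (k + j)) (A (k + j + 1)) := fun h4 => ht (mem_iUnion.2 ⟨j, h4⟩)
      rw [Set.mem_symmDiff] at h3
      rw [← ih, ← add_assoc]
      tauto
  refine (m_sub_le (D := D) (MeasurableSet.iUnion fun n => MeasurableSet.iInter fun k => hA _)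
    (hA k) hDm' huv ?_).trans ((m_sub_interval hDm' hu huv hv).trans h1)
  intro t ht
  constructor
  · intro h3
    obtain ⟨n, hn⟩ := mem_iUnion.1 h3
    have h4 := mem_iInter.1 hn k
    rw [add_comm] at h4
    exact (h2 t ht n).1 h4
  · intro h3
    refine mem_iUnion.2 ⟨k, mem_iInter.2 (fun j => (h2 t ht j).2 h3)⟩

/-- the two sets on `[0,1]` -/
theorem unit_sets : ∃ S T : Set ℝ, MeasurableSet S ∧ MeasurableSet T ∧
    ∀ x y l, 0 ≤ x → 0 < l → x + l ≤ y → y + l ≤ 1 →
      ¬ (m S x (x + l) = m S y (y + l) ∧ m T x (x + l) = m T y (y + l)) := by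
  obtain ⟨S, hS, hS'⟩ := limit_set (fun k => St (seq k).P) (fun k => St_meas _) (fun k => (seq k).b)
    (fun k => (seq k).b0.le) seq_b (fun k => (seq_spec k).2.1)
  obtain ⟨T, hT, hT'⟩ := limit_set (fun k => St (seq k).Q) (fun k => St_meas _) (fun k => (seq k).b)
    (fun k => (seq k).b0.le) seq_b (fun k => (seq_spec k).2.2.1)
  refine ⟨S, T, hS, hT, ?_⟩
  rintro x y l hx hl hxy hy ⟨h1, h2⟩
  obtain ⟨k, hk⟩ := exists_nat_one_div_lt hl
  have hk' : 1 / ((k:ℝ) + 2) ≤ l := by
    refine le_trans ?_ hk.le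
    apply one_div_le_one_div_of_le
    · positivity
    · linarith
  have h3 := (seq_spec k).2.2.2 x y l hx hk' hxy hy
  have b0 := (seq (k+1)).b0
  have a1 := abs_le.1 (hS' (k+1) x (x + l) hx (by linarith) (by linarith))
  have a2 := abs_le.1 (hS' (k+1) y (y + l) (by linarith) (by linarith) (by linarith))
  have a3 := abs_le.1 (hT' (k+1) x (x + l) hx (by linarith) (by linarith))
  have a4 := abs_le.1 (hT' (k+1) y (y + l) (by linarith) (by linarith) (by linarith))
  unfold gapf at h3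
  have k1 : |m (St (seq (k+1)).P) x (x + l) - m (St (seq (k+1)).P) y (y + l)|
      ≤ 4 * (seq (k+1)).b := by
    rw [abs_le]; constructor <;> linarith [a1.1, a1.2, a2.1, a2.2]
  have k2 : |m (St (seq (k+1)).Q) x (x + l) - m (St (seq (k+1)).Q) y (y + l)|
      ≤ 4 * (seq (k+1)).b := by
    rw [abs_le]; constructor <;> linarith [a3.1, a3.2, a4.1, a4.2]
  linarith

end R495.TS
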