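import Mathlib
import Pool.Agent.R495.TS.Step

/-!
Transfer from `[0,1]` to the real line: three test sets reconstruct an interval.
-/

open MeasureTheory Set Filter Topology

namespace R495.TS

theorem unit_sets' : ∃ S T : Set ℝ, MeasurableSet S ∧ MeasurableSet T ∧
    ∀ u v l, 0 ≤ u → 0 < l → u < v → v + l ≤ 1 →
      ¬ (m S u (u + l) = m S v (v + l) ∧ m T u (u + l) = m T v (v + l)) := by
  obtain ⟨S, T, hS, hT, h⟩ := unit_sets
  refine ⟨S, T, hS, hT, ?_⟩
  rintro u v l hu hl huv hv ⟨h1, h2⟩
  rcases le_or_gt (u + l) v with h3 | h3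
  · exact h u v l hu hl h3 hv ⟨h1, h2⟩
  · refine h u (u + l) (v - u) hu (by linarith) (by linarith) (by linarith) ⟨?_, ?_⟩
    · have e1 := m_add hS u v (u + l)
      have e2 := m_add hS v (u + l) (v + l)
      rw [show u + (v - u) = v by ring, show u + l + (v - u) = v + l by ring]
      linarith
    · have e1 := m_add hT u v (u + l)
      have e2 := m_add hT v (u + l) (v + l)
      rw [show u + (v - u) = v by ring, show u + l + (v - u) = v + l by ring]
      linarith

/-- a measurable set of measure at most one, meeting every open interval in positive measure -/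
lemma exists_W : ∃ W : Set ℝ, MeasurableSet W ∧ volume W ≤ 1 ∧
    ∀ a b : ℝ, a < b → 0 < volume (Ioo a b ∩ W) := by
  set W : Set ℝ := ⋃ n : ℕ, Metric.ball ((Rat.castHom ℝ) ((Encodable.decode (α := ℚ) n).getD 0))
    ((1/2 : ℝ)^(n + 2)) with hW
  have hWo : IsOpen W := isOpen_iUnion fun n => Metric.isOpen_ball
  refine ⟨W, hWo.measurableSet, ?_, ?_⟩
  · refine (measure_iUnion_le _).trans ?_
    have h1 : ∀ n : ℕ, volume (Metric.ball ((Rat.castHom ℝ) ((Encodable.decode (α := ℚ) n).getD 0))
        ((1/2 : ℝ)^(n + 2))) = ENNReal.ofReal ((1/2) * (1/2 : ℝ)^n) := by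
      intro n
      rw [Real.volume_ball]
      congr 1; ring
    simp_rw [h1]
    have hs : Summable fun n : ℕ => (1/2) * (1/2 : ℝ)^n := summable_geometric_two.mul_left _
    rw [← ENNReal.ofReal_tsum_of_nonneg (fun n => by positivity) hs, tsum_mul_left,
      tsum_geometric_two]
    norm_num
  · intro a b hab
    obtain ⟨q, hq1, hq2⟩ := exists_rat_btwn hab
    have hne : (Ioo a b ∩ W).Nonempty := by
      refine ⟨q, ⟨hq1, hq2⟩, ?_⟩
      refine mem_iUnion.2 ⟨Encodable.encode q, ?_⟩
      rw [Encodable.encodek]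
      simp
    exact (isOpen_Ioo.inter hWo).measure_pos volume hne

/-- the transfer -/
lemma transfer {W : Set ℝ} (hWm : MeasurableSet W) (hW1 : volume W ≤ 1)
    (hW : ∀ a b : ℝ, a < b → 0 < volume (Ioo a b ∩ W)) :
    ∃ ψ : ℝ → ℝ, Measurable ψ ∧ StrictMono ψ ∧ (∀ t, 0 ≤ ψ t) ∧ (∀ t, ψ t ≤ 1) ∧
      ∀ A : Set ℝ, MeasurableSet A → ∀ x y, x ≤ y →
        volume (Icc x y ∩ (W ∩ ψ ⁻¹' A)) = volume (Icc (ψ x) (ψ y) ∩ A) := by
  set ν : Measure ℝ := volume.restrict W with hν
  have hνfin : ∀ s, ν s ≤ 1 := fun s => by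
    refine (measure_mono (subset_univ s)).trans ?_
    rw [hν, Measure.restrict_apply_univ]; exact hW1
  have hνne : ∀ s, ν s ≠ ⊤ := fun s => ne_top_of_le_ne_top ENNReal.one_ne_top (hνfin s)
  have : IsFiniteMeasure ν := ⟨(hνfin _).trans_lt ENNReal.one_lt_top⟩
  set ψ : ℝ → ℝ := fun t => (ν (Iic t)).toReal with hψ
  have hadd : ∀ x z, x ≤ z → ν (Iic z) = ν (Iic x) + ν (Ioc x z) := by
    intro x z hxz
    rw [← measure_union (by
      rw [Set.disjoint_left]; intro t h1 h2; exact absurd h1 (not_le.2 h2.1)) measurableSet_Ioc,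
      Iic_union_Ioc_eq_Iic hxz]
  have hIoc : ∀ x z, x ≤ z → (ν (Ioc x z)).toReal = ψ z - ψ x := by
    intro x z hxz
    simp only [hψ]
    rw [hadd x z hxz, ENNReal.toReal_add (hνne _) (hνne _)]; ring
  have hIcc : ∀ x z, x ≤ z → ν (Icc x z) = ENNReal.ofReal (ψ z - ψ x) := by
    intro x z hxz
    rw [← hIoc x z hxz, ENNReal.ofReal_toReal (hνne _)]
    exact (measure_congr (Ioc_ae_eq_Icc (μ := ν))).symm
  have hmono : StrictMono ψ := by
    intro x z hxz
    have h1 := hIoc x z hxz.le
    have h2 : 0 < (ν (Ioc x z)).toReal := by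
      refine ENNReal.toReal_pos ?_ (hνne _)
      have h3 : 0 < ν (Ioo x z) := by
        rw [hν, Measure.restrict_apply measurableSet_Ioo]; exact hW x z hxz
      exact (h3.trans_le (measure_mono Ioo_subset_Ioc_self)).ne'
    linarith
  have hcont : Continuous ψ := by
    refine LipschitzWith.continuous (K := 1) (LipschitzWith.of_le_add ?_)
    intro x z
    rcases le_total x z with h | h
    · have := hmono.monotone h
      have := dist_nonneg (x := x) (y := z)
      linarith
    · have h1 := hIoc z x h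
      have h2 : (ν (Ioc z x)).toReal ≤ x - z := by
        have h3 : ν (Ioc z x) ≤ ENNReal.ofReal (x - z) := by
          rw [← Real.volume_Ioc, hν]
          exact Measure.restrict_apply_le _ _
        exact ENNReal.toReal_le_of_le_ofReal (by linarith) h3
      rw [Real.dist_eq, abs_of_nonneg (by linarith)]
      linarith
  refine ⟨ψ, hcont.measurable, hmono, fun t => ENNReal.toReal_nonneg, fun t => ?_, ?_⟩
  · simp only [hψ]
    have := ENNReal.toReal_mono ENNReal.one_ne_top (hνfin (Iic t))
    simpa using this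
  · intro A hA x y hxy
    have e1 : volume (Icc x y ∩ (W ∩ ψ ⁻¹' A)) = ν (ψ ⁻¹' A ∩ Icc x y) := by
      rw [hν, Measure.restrict_apply ((hcont.measurable hA).inter measurableSet_Icc)]
      congr 1; ext t; simp only [mem_inter_iff]; tauto
    have e2 : ν (ψ ⁻¹' A ∩ Icc x y) = (Measure.map ψ (ν.restrict (Icc x y))) A := by
      rw [Measure.map_apply hcont.measurable hA, Measure.restrict_apply (hcont.measurable hA)]
    have e3 : volume (Icc (ψ x) (ψ y) ∩ A) = (volume.restrict (Icc (ψ x) (ψ y))) A := by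
      rw [Measure.restrict_apply hA, inter_comm]
    rw [e1, e2, e3]
    congr 1
    refine Measure.ext_of_Iic _ _ (fun a => ?_)
    rw [Measure.map_apply hcont.measurable measurableSet_Iic,
      Measure.restrict_apply (hcont.measurable measurableSet_Iic),
      Measure.restrict_apply measurableSet_Iic]
    rcases lt_or_ge a (ψ x) with h1 | h1
    · have k1 : ψ ⁻¹' Iic a ∩ Icc x y = ∅ := by
        ext t
        simp only [mem_inter_iff, mem_preimage, mem_Iic, mem_Icc, mem_empty_iff_false, iff_false]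
        rintro ⟨h2, h3, -⟩
        have := hmono.monotone h3
        linarith
      have k2 : Iic a ∩ Icc (ψ x) (ψ y) = ∅ := by
        ext t
        simp only [mem_inter_iff, mem_Iic, mem_Icc, mem_empty_iff_false, iff_false]
        rintro ⟨h2, h3, -⟩
        linarith
      rw [k1, k2]; simp
    · rcases le_or_gt (ψ y) a with h2 | h2
      · have k1 : ψ ⁻¹' Iic a ∩ Icc x y = Icc x y := by
          ext t
          simp only [mem_inter_iff, mem_preimage, mem_Iic, mem_Icc, and_iff_right_iff_imp]
          rintro ⟨-, h3⟩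
          exact (hmono.monotone h3).trans h2
        have k2 : Iic a ∩ Icc (ψ x) (ψ y) = Icc (ψ x) (ψ y) := by
          ext t
          simp only [mem_inter_iff, mem_Iic, mem_Icc, and_iff_right_iff_imp]
          rintro ⟨-, h3⟩
          linarith
        rw [k1, k2, hIcc x y hxy, Real.volume_Icc]
      · obtain ⟨z, hz, rfl⟩ := intermediate_value_Icc hxy hcont.continuousOn ⟨h1, h2.le⟩
        have k1 : ψ ⁻¹' Iic (ψ z) ∩ Icc x y = Icc x z := by
          ext t
          simp only [mem_inter_iff, mem_preimage, mem_Iic, mem_Icc, hmono.le_iff_le]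
          constructor
          · rintro ⟨h3, h4, -⟩; exact ⟨h4, h3⟩
          · rintro ⟨h3, h4⟩; exact ⟨h4, h3, h4.trans hz.2⟩
        have k2 : Iic (ψ z) ∩ Icc (ψ x) (ψ y) = Icc (ψ x) (ψ z) := by
          ext t
          simp only [mem_inter_iff, mem_Iic, mem_Icc]
          constructor
          · rintro ⟨h3, h4, -⟩; exact ⟨h4, h3⟩
          · rintro ⟨h3, h4⟩; exact ⟨h4, h3, by linarith⟩
        rw [k1, k2, hIcc x z hz.1, Real.volume_Icc]

/-- Three test sets reconstruct an interval. -/
theorem three_test_sets : ∃ T : Fin 3 → Set ℝ, (∀ i, MeasurableSet (T i)) ∧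
    ∀ x y x' y' : ℝ, x < y → x' < y' →
      (∀ i, volume (Icc x y ∩ T i) = volume (Icc x' y' ∩ T i)) → x = x' ∧ y = y' := by
  obtain ⟨W, hWm, hW1, hW⟩ := exists_W
  obtain ⟨ψ, hψm, hmono, h0, h1, htr⟩ := transfer hWm hW1 hW
  obtain ⟨S, T, hS, hT, hST⟩ := unit_sets'
  refine ⟨![W, W ∩ ψ ⁻¹' S, W ∩ ψ ⁻¹' T], ?_, ?_⟩
  · intro i
    fin_cases i
    · exact hWm
    · exact hWm.inter (hψm hS)
    · exact hWm.inter (hψm hT)
  · intro x y x' y' hxy hxy' h
    have hlen : ψ y - ψ x = ψ y' - ψ x' := by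
      have e := h 0
      simp only [Matrix.cons_val_zero] at e
      have e1 := htr univ MeasurableSet.univ x y hxy.le
      have e2 := htr univ MeasurableSet.univ x' y' hxy'.le
      simp only [preimage_univ, inter_univ, Real.volume_Icc] at e1 e2
      rw [e1, e2] at e
      have := congrArg ENNReal.toReal e
      rwa [ENNReal.toReal_ofReal (by linarith [hmono hxy]),
        ENNReal.toReal_ofReal (by linarith [hmono hxy'])] at this
    have hA : ∀ A : Set ℝ, MeasurableSet A →
        volume (Icc x y ∩ (W ∩ ψ ⁻¹' A)) = volume (Icc x' y' ∩ (W ∩ ψ ⁻¹' A)) →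
        m A (ψ x) (ψ y) = m A (ψ x') (ψ y') := by
      intro A hA e
      rw [htr A hA x y hxy.le, htr A hA x' y' hxy'.le] at e
      rw [m_eq_volume hA (hmono hxy).le, m_eq_volume hA (hmono hxy').le, e]
    have hS' := hA S hS (h 1)
    have hT' := hA T hT (h 2)
    have key : ψ x = ψ x' := by
      rcases lt_trichotomy (ψ x) (ψ x') with hlt | heq | hgt
      · exfalso
        refine hST (ψ x) (ψ x') (ψ y - ψ x) (h0 x) (by linarith [hmono hxy]) hlt
          (by linarith [h1 y']) ?_
        rw [show ψ x + (ψ y - ψ x) = ψ y by ring, show ψ x' + (ψ y - ψ x) = ψ y' by linarith]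
        exact ⟨hS', hT'⟩
      · exact heq
      · exfalso
        refine hST (ψ x') (ψ x) (ψ y - ψ x) (h0 x') (by linarith [hmono hxy]) hgt
          (by linarith [h1 y]) ?_
        rw [show ψ x + (ψ y - ψ x) = ψ y by ring, show ψ x' + (ψ y - ψ x) = ψ y' by linarith]
        exact ⟨hS'.symm, hT'.symm⟩
    exact ⟨hmono.injective key, hmono.injective (by linarith)⟩

end R495.TS
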